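import Pool.Agent.H801.Tri.Sol2
import Pool.Agent.H801.Fvs.Comp

/-!
# The disjunction of many 3SAT instances as a triangle-free graph
-/

namespace Pool.Agent.H801.Tri

open Pool.Agent.NPC
open Pool.Agent.H801.Fvs (F3 Cl good ent)

/-- The width of a block of columns. -/
def wN (N : ℕ) : ℕ := N + N + N + N + N + N

/-- A literal of a clause. -/
def litN (c : Cl) (p : ℕ) : Lit ℕ := if p = 0 then c.1 else if p = 1 then c.2.1 else c.2.2

/-- The column contradicting a literal. -/
def ng (l : Lit ℕ) : ℕ := l.2 + l.2 + (if l.1 = true then 0 else 1)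

/-- The conflicts of one formula. -/
def cfo (N : ℕ) (φ : F3) (o o' : ℕ) : Bool :=
  !(good N φ) || (match φ[o' / 3]? with
    | none => false
    | some c => decide (o = ng (litN c (o' % 3))))

/-- The conflicts. -/
def cfc (N t : ℕ) (Φ : List F3) (x i i' : ℕ) : Bool :=
  decide (i / wN N < t) && (decide (i' / wN N < t) &&
    (match Φ[(x * t + i / wN N) * t + i' / wN N]? with
      | none => true
      | some φ => cfo N φ (i % wN N) (i' % wN N)))

/-- an auxiliary variable is true -/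
def pos (κ a : ℕ) : E := (2, a, 0, κ)

/-- an auxiliary variable is false -/
def neg (κ a : ℕ) : E := (2, a, 1, κ)

/-- a column is used -/
def con (σ j : ℕ) : E := (1, σ, j, 0)

/-- The clauses. -/
def cls (N t : ℕ) : List (E × E × E) :=
  [(pos 0 0, pos 0 0, pos 0 0), (pos 1 0, pos 1 0, pos 1 0), (neg 0 t, neg 0 t, neg 0 t),
    (neg 1 t, neg 1 t, neg 1 t)] ++
  (List.range t).flatMap (fun y =>
    [(neg 0 y, pos 2 y, pos 0 (y + 1)), (neg 1 y, pos 3 y, pos 1 (y + 1))] ++
    ((List.range (N + N + N)).map (fun v =>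
      (neg 2 y, con 0 (y * wN N + (v + v)), con 0 (y * wN N + (v + v + 1)))) ++
    (List.range N).flatMap (fun c =>
      [(neg 3 y, con 1 (y * wN N + (c + c + c)), pos (4 + c) y),
        (neg (4 + c) y, con 1 (y * wN N + (c + c + c + 1)), con 1 (y * wN N + (c + c + c + 2)))])))

/-- The data of the composition. -/
def dat (A : List (List Bool)) (h r t N : ℕ) (Φ : List F3) : Dat where
  A := A
  h := h
  r := r
  na := t + 1
  nk := N + 4
  cls := cls N t
  cf := cfc N t Φ

theorem mem_cls {N t : ℕ} {c : E × E × E} : c ∈ cls N t ↔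
    c = (pos 0 0, pos 0 0, pos 0 0) ∨ c = (pos 1 0, pos 1 0, pos 1 0) ∨
    c = (neg 0 t, neg 0 t, neg 0 t) ∨ c = (neg 1 t, neg 1 t, neg 1 t) ∨
    ∃ y < t, c = (neg 0 y, pos 2 y, pos 0 (y + 1)) ∨ c = (neg 1 y, pos 3 y, pos 1 (y + 1)) ∨
      (∃ v < N + N + N,
        c = (neg 2 y, con 0 (y * wN N + (v + v)), con 0 (y * wN N + (v + v + 1)))) ∨
      ∃ q < N, c = (neg 3 y, con 1 (y * wN N + (q + q + q)), pos (4 + q) y) ∨
        c = (neg (4 + q) y, con 1 (y * wN N + (q + q + q + 1)),
          con 1 (y * wN N + (q + q + q + 2))) := by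
  unfold cls
  simp only [List.mem_append, List.mem_cons, List.not_mem_nil, or_false, List.mem_flatMap,
    List.mem_range, List.mem_map]
  constructor
  · rintro ((h | h | h | h) | ⟨y, hy, (h | h) | (⟨v, hv, h⟩ | ⟨q, hq, h⟩)⟩)
    · exact Or.inl h
    · exact Or.inr (Or.inl h)
    · exact Or.inr (Or.inr (Or.inl h))
    · exact Or.inr (Or.inr (Or.inr (Or.inl h)))
    · exact Or.inr (Or.inr (Or.inr (Or.inr ⟨y, hy, Or.inl h⟩)))
    · exact Or.inr (Or.inr (Or.inr (Or.inr ⟨y, hy, Or.inr (Or.inl h)⟩)))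
    · exact Or.inr (Or.inr (Or.inr (Or.inr ⟨y, hy, Or.inr (Or.inr (Or.inl ⟨v, hv, h.symm⟩))⟩)))
    · exact Or.inr (Or.inr (Or.inr (Or.inr ⟨y, hy, Or.inr (Or.inr (Or.inr ⟨q, hq, h⟩))⟩)))
  · rintro (h | h | h | h | ⟨y, hy, h | h | ⟨v, hv, h⟩ | ⟨q, hq, h⟩⟩)
    · exact Or.inl (Or.inl h)
    · exact Or.inl (Or.inr (Or.inl h))
    · exact Or.inl (Or.inr (Or.inr (Or.inl h)))
    · exact Or.inl (Or.inr (Or.inr (Or.inr h)))
    · exact Or.inr ⟨y, hy, Or.inl (Or.inl h)⟩
    · exact Or.inr ⟨y, hy, Or.inl (Or.inr h)⟩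
    · exact Or.inr ⟨y, hy, Or.inr (Or.inl ⟨v, hv, h.symm⟩)⟩
    · exact Or.inr ⟨y, hy, Or.inr (Or.inr ⟨q, hq, h⟩)⟩

theorem divw {w y o : ℕ} (ho : o < w) : (y * w + o) / w = y ∧ (y * w + o) % w = o := by
  have hw : 0 < w := by omega
  constructor
  · rw [Nat.add_comm, Nat.add_mul_div_right _ _ hw, Nat.div_eq_of_lt ho, Nat.zero_add]
  · rw [Nat.add_comm, Nat.add_mul_mod_self_right, Nat.mod_eq_of_lt ho]

theorem block_lt {w y o t h : ℕ} (ho : o < w) (hy : y < t) (hth : t * w ≤ h) : y * w + o < h := by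
  have : (y + 1) * w ≤ t * w := Nat.mul_le_mul_right w hy
  rw [Nat.add_mul, one_mul] at this
  omega

section

variable {P : ℕ → ℕ → Prop} {τ : ℕ → ℕ → ℕ}

theorem tru_pos {κ a : ℕ} : tru P τ (pos κ a) ↔ τ a κ ≠ 0 := by simp [tru, pos]

theorem tru_neg {κ a : ℕ} : tru P τ (neg κ a) ↔ τ a κ ≠ 1 := by simp [tru, neg]

theorem tru_con {σ j : ℕ} : tru P τ (con σ j) ↔ P σ j := by simp [tru, con]

end

theorem chain {f g : ℕ → ℕ} {t : ℕ} (hf : ∀ y, f y ≤ 1) (h0 : f 0 ≠ 0) (ht : f t ≠ 1)
    (hs : ∀ y < t, f y ≠ 1 ∨ g y ≠ 0 ∨ f (y + 1) ≠ 0) : ∃ y < t, g y ≠ 0 := by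
  by_contra hcon
  push Not at hcon
  have key : ∀ y, y ≤ t → f y = 1 := by
    intro y
    induction y with
    | zero => intro _; have := hf 0; omega
    | succ y ih =>
      intro hy
      have h1 := ih (by omega)
      have h2 := hcon y (by omega)
      have h3 := hs y (by omega)
      have h4 := hf (y + 1)
      omega
  exact ht (key t le_rfl)

section

variable {A : List (List Bool)} {h r t N : ℕ} {Φ : List F3}

theorem ok_dat (hth : t * wN N ≤ h) : ok (dat A h r t N Φ) := by
  have hp : ∀ κ a, κ < N + 4 → a < t + 1 → okE (dat A h r t N Φ) (pos κ a) := fun κ a h1 h2 =>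
    Or.inr ⟨rfl, h2, by simp [pos], h1⟩
  have hn : ∀ κ a, κ < N + 4 → a < t + 1 → okE (dat A h r t N Φ) (neg κ a) := fun κ a h1 h2 =>
    Or.inr ⟨rfl, h2, by simp [neg], h1⟩
  have hc : ∀ σ y o, σ < 2 → y < t → o < wN N →
      okE (dat A h r t N Φ) (con σ (y * wN N + o)) := fun σ y o h1 h2 h3 =>
    Or.inl ⟨rfl, h1, block_lt h3 h2 hth, rfl⟩
  intro c hcm
  rcases mem_cls.1 hcm with rfl | rfl | rfl | rfl | ⟨y, hy, rfl | rfl | ⟨v, hv, rfl⟩ |
    ⟨q, hq, rfl | rfl⟩⟩
  · exact ⟨hp _ _ (by omega) (by omega), hp _ _ (by omega) (by omega), hp _ _ (by omega) (by omega)⟩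
  · exact ⟨hp _ _ (by omega) (by omega), hp _ _ (by omega) (by omega), hp _ _ (by omega) (by omega)⟩
  · exact ⟨hn _ _ (by omega) (by omega), hn _ _ (by omega) (by omega), hn _ _ (by omega) (by omega)⟩
  · exact ⟨hn _ _ (by omega) (by omega), hn _ _ (by omega) (by omega), hn _ _ (by omega) (by omega)⟩
  · exact ⟨hn _ _ (by omega) (by omega), hp _ _ (by omega) (by omega), hp _ _ (by omega) (by omega)⟩
  · exact ⟨hn _ _ (by omega) (by omega), hp _ _ (by omega) (by omega), hp _ _ (by omega) (by omega)⟩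
  · exact ⟨hn _ _ (by omega) (by omega), hc _ _ _ (by omega) hy (by unfold wN; omega),
      hc _ _ _ (by omega) hy (by unfold wN; omega)⟩
  · exact ⟨hn _ _ (by omega) (by omega), hc _ _ _ (by omega) hy (by unfold wN; omega),
      hp _ _ (by omega) (by omega)⟩
  · exact ⟨hn _ _ (by omega) (by omega), hc _ _ _ (by omega) hy (by unfold wN; omega),
      hc _ _ _ (by omega) hy (by unfold wN; omega)⟩

theorem cfc_block {x y y' o o' : ℕ} (hy : y < t) (hy' : y' < t) (ho : o < wN N)
    (ho' : o' < wN N) : cfc N t Φ x (y * wN N + o) (y' * wN N + o') =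
      match Φ[(x * t + y) * t + y']? with
      | none => true
      | some φ => cfo N φ o o' := by
  unfold cfc
  rw [(divw ho).1, (divw ho).2, (divw ho').1, (divw ho').2]
  simp [hy, hy']

theorem sat_of_sol (hN : 0 < N) (hth : t * wN N ≤ h) (hs : Sol (dat A h r t N Φ)) :
    ∃ φ ∈ Φ, good N φ = true ∧ SAT3 φ := by
  classical
  obtain ⟨x, hx, P, τ, hτ, hcl, hcf⟩ := hs
  have hcl' : ∀ c, c ∈ cls N t → tru P τ c.1 ∨ tru P τ c.2.1 ∨ tru P τ c.2.2 := hcl
  have hcf' : ∀ y < t, ∀ y' < t, ∀ o < wN N, ∀ o' < wN N, P 0 (y * wN N + o) →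
      P 1 (y' * wN N + o') → (match Φ[(x * t + y) * t + y']? with
      | none => true
      | some φ => cfo N φ o o') = false := by
    intro y hy y' hy' o ho o' ho' h0 h1
    rw [← cfc_block hy hy' ho ho']
    exact hcf _ (block_lt ho hy hth) _ (block_lt ho' hy' hth) h0 h1
  -- the active blocks
  obtain ⟨y0, hy0, hact0⟩ := chain (f := fun y => τ y 0) (g := fun y => τ y 2) (t := t)
    (fun y => hτ y 0)
    (by
      have := hcl' _ (mem_cls.2 (Or.inl rfl))
      simp only [tru_pos] at this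
      tauto)
    (by
      have := hcl' _ (mem_cls.2 (Or.inr (Or.inr (Or.inl rfl))))
      simp only [tru_neg] at this
      tauto)
    (fun y hy => by
      have := hcl' _ (mem_cls.2 (Or.inr (Or.inr (Or.inr (Or.inr ⟨y, hy, Or.inl rfl⟩)))))
      simpa only [tru_neg, tru_pos] using this)
  obtain ⟨y1, hy1, hact1⟩ := chain (f := fun y => τ y 1) (g := fun y => τ y 3) (t := t)
    (fun y => hτ y 1)
    (by
      have := hcl' _ (mem_cls.2 (Or.inr (Or.inl rfl)))
      simp only [tru_pos] at this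
      tauto)
    (by
      have := hcl' _ (mem_cls.2 (Or.inr (Or.inr (Or.inr (Or.inl rfl)))))
      simp only [tru_neg] at this
      tauto)
    (fun y hy => by
      have := hcl' _ (mem_cls.2 (Or.inr (Or.inr (Or.inr (Or.inr ⟨y, hy, Or.inr (Or.inl rfl)⟩)))))
      simpa only [tru_neg, tru_pos] using this)
  have hact0' : τ y0 2 = 1 := by have := hτ y0 2; omega
  have hact1' : τ y1 3 = 1 := by have := hτ y1 3; omega
  -- values of the variables
  have hval : ∀ v < N + N + N, P 0 (y0 * wN N + (v + v)) ∨ P 0 (y0 * wN N + (v + v + 1)) := by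
    intro v hv
    have := hcl' _ (mem_cls.2 (Or.inr (Or.inr (Or.inr (Or.inr ⟨y0, hy0,
      Or.inr (Or.inr (Or.inl ⟨v, hv, rfl⟩))⟩)))))
    simp only [tru_neg, tru_con] at this
    tauto
  have hcla : ∀ q < N, P 1 (y1 * wN N + (q + q + q)) ∨ P 1 (y1 * wN N + (q + q + q + 1)) ∨
      P 1 (y1 * wN N + (q + q + q + 2)) := by
    intro q hq
    have h1 := hcl' _ (mem_cls.2 (Or.inr (Or.inr (Or.inr (Or.inr ⟨y1, hy1,
      Or.inr (Or.inr (Or.inr ⟨q, hq, Or.inl rfl⟩))⟩)))))
    have h2 := hcl' _ (mem_cls.2 (Or.inr (Or.inr (Or.inr (Or.inr ⟨y1, hy1,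
      Or.inr (Or.inr (Or.inr ⟨q, hq, Or.inr rfl⟩))⟩)))))
    simp only [tru_neg, tru_con, tru_pos] at h1 h2
    have h3 := hτ y1 (4 + q)
    by_cases h4 : τ y1 (4 + q) = 1
    · tauto
    · have h5 : τ y1 (4 + q) = 0 := by omega
      tauto
  -- the formula
  have hsome : ∃ φ, Φ[(x * t + y0) * t + y1]? = some φ ∧ good N φ = true := by
    have hv0 : ∃ o < wN N, P 0 (y0 * wN N + o) := by
      rcases hval 0 (by omega) with h1 | h1
      · exact ⟨_, by unfold wN; omega, h1⟩
      · exact ⟨_, by unfold wN; omega, h1⟩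
    have hc0 : ∃ o < wN N, P 1 (y1 * wN N + o) := by
      rcases hcla 0 hN with h1 | h1 | h1
      · exact ⟨_, by unfold wN; omega, h1⟩
      · exact ⟨_, by unfold wN; omega, h1⟩
      · exact ⟨_, by unfold wN; omega, h1⟩
    obtain ⟨o, ho, hPo⟩ := hv0
    obtain ⟨o', ho', hPo'⟩ := hc0
    have h1 := hcf' y0 hy0 y1 hy1 o ho o' ho' hPo hPo'
    cases hΦ : Φ[(x * t + y0) * t + y1]? with
    | none => rw [hΦ] at h1; simp at h1
    | some φ =>
      rw [hΦ] at h1
      refine ⟨φ, rfl, ?_⟩
      unfold cfo at h1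
      rw [Bool.or_eq_false_iff] at h1
      simpa using h1.1
  obtain ⟨φ, hφ, hg⟩ := hsome
  refine ⟨φ, List.mem_of_getElem? hφ, hg, fun v => decide (P 0 (y0 * wN N + (v + v + 1))), ?_⟩
  have hg' := hg
  unfold good at hg'
  rw [Bool.and_eq_true, decide_eq_true_iff, List.all_eq_true] at hg'
  intro c hc
  obtain ⟨q, hq, hqc⟩ := List.getElem_of_mem hc
  have hqN : q < N := lt_of_lt_of_le hq hg'.1
  have hcb := hg'.2 c hc
  simp only [Bool.and_eq_true, decide_eq_true_iff] at hcb
  -- a chosen literal is true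
  have hlit : ∀ p < 3, (litN c p).2 < N + N + N → P 1 (y1 * wN N + (q + q + q + p)) →
      decide (P 0 (y0 * wN N + ((litN c p).2 + (litN c p).2 + 1))) = (litN c p).1 := by
    intro p hp hl2 hP1
    have hno : ∀ o < wN N, P 0 (y0 * wN N + o) → o ≠ ng (litN c p) := by
      intro o ho hPo
      have h1 := hcf' y0 hy0 y1 hy1 o ho (q + q + q + p) (by unfold wN; omega) hPo hP1
      rw [hφ] at h1
      simp only at h1
      unfold cfo at h1
      have e1 : (q + q + q + p) / 3 = q := by omega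
      have e2 : (q + q + q + p) % 3 = p := by omega
      rw [e1, e2, List.getElem?_eq_getElem hq, hqc] at h1
      simp only [Bool.or_eq_false_iff, decide_eq_false_iff_not] at h1
      exact h1.2
    have hv := hval _ hl2
    unfold ng at hno
    cases hl1 : (litN c p).1 with
    | true =>
      rw [decide_eq_true_iff]
      rcases hv with hv | hv
      · have := hno _ (by unfold wN; omega) hv
        rw [hl1] at this
        simp at this
      · exact hv
    | false =>
      rw [decide_eq_false_iff_not]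
      intro hv'
      have := hno _ (by unfold wN; omega) hv'
      rw [hl1] at this
      simp at this
  rcases hcla q hqN with h1 | h1 | h1
  · exact Or.inl (hlit 0 (by omega) hcb.1 h1)
  · exact Or.inr (Or.inl (hlit 1 (by omega) hcb.2.1 h1))
  · exact Or.inr (Or.inr (hlit 2 (by omega) hcb.2.2 h1))

theorem sol_of_sat (hl : Φ.length ≤ r * t * t) {φ : F3} (hφ : φ ∈ Φ)
    (hg : good N φ = true) (hs : SAT3 φ) : Sol (dat A h r t N Φ) := by
  classical
  obtain ⟨α, hα⟩ := hs
  obtain ⟨j, hj, hjφ⟩ := List.getElem_of_mem hφ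
  have ht : 0 < t := by
    rcases Nat.eq_zero_or_pos t with h0 | h0
    · subst h0
      simp only [mul_zero] at hl
      omega
    · exact h0
  set y1 := j % t with hy1
  set y0 := (j / t) % t with hy0
  set x := j / t / t with hx
  have hy1t : y1 < t := Nat.mod_lt _ ht
  have hy0t : y0 < t := Nat.mod_lt _ ht
  have hxr : x < r := by
    rw [hx, Nat.div_lt_iff_lt_mul ht, Nat.div_lt_iff_lt_mul ht]
    omega
  have hidx : (x * t + y0) * t + y1 = j := by
    have e1 : x * t + y0 = j / t := by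
      rw [hx, hy0, Nat.mul_comm]
      exact Nat.div_add_mod _ _
    rw [e1, hy1, Nat.mul_comm]
    exact Nat.div_add_mod _ _
  have hgd : Φ[(x * t + y0) * t + y1]? = some φ := by
    rw [hidx, List.getElem?_eq_getElem hj, hjφ]
  -- the literals chosen
  let T : ℕ → ℕ → Prop := fun q p => ∀ c, φ[q]? = some c → α (litN c p).2 = (litN c p).1
  have hT : ∀ q, T q 0 ∨ T q 1 ∨ T q 2 := by
    intro q
    cases hq : φ[q]? with
    | none => exact Or.inl (fun c hc => by rw [hq] at hc; simp at hc)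
    | some c =>
      have hc := hα c (List.mem_of_getElem? hq)
      have h1 : ∀ p, α (litN c p).2 = (litN c p).1 → T q p := by
        intro p hp c' hc'
        rw [hq] at hc'
        rw [← Option.some.inj hc']
        exact hp
      rcases hc with hc | hc | hc
      · exact Or.inl (h1 0 hc)
      · exact Or.inr (Or.inl (h1 1 hc))
      · exact Or.inr (Or.inr (h1 2 hc))
  let P : ℕ → ℕ → Prop := fun σ i =>
    (σ = 0 ∧ ∃ v < N + N + N, i = y0 * wN N + (v + v + (if α v = true then 1 else 0))) ∨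
    (σ = 1 ∧ ∃ q < N, ∃ p < 3, i = y1 * wN N + (q + q + q + p) ∧ T q p)
  have hP0 : ∀ i, P 0 i ↔ ∃ v < N + N + N,
      i = y0 * wN N + (v + v + (if α v = true then 1 else 0)) := by
    intro i
    simp [P]
  have hP1 : ∀ i, P 1 i ↔ ∃ q < N, ∃ p < 3, i = y1 * wN N + (q + q + q + p) ∧ T q p := by
    intro i
    simp [P]
  let τ : ℕ → ℕ → ℕ := fun a κ =>
    if κ = 0 then (if a ≤ y0 then 1 else 0) else if κ = 1 then (if a ≤ y1 then 1 else 0) else
    if κ = 2 then (if a = y0 then 1 else 0) else if κ = 3 then (if a = y1 then 1 else 0) else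
    if a = y1 ∧ ¬ P 1 (y1 * wN N + ((κ - 4) + (κ - 4) + (κ - 4))) then 1 else 0
  have t0 : ∀ a, τ a 0 = if a ≤ y0 then 1 else 0 := fun a => by simp [τ]
  have t1 : ∀ a, τ a 1 = if a ≤ y1 then 1 else 0 := fun a => by simp [τ]
  have t2 : ∀ a, τ a 2 = if a = y0 then 1 else 0 := fun a => by simp [τ]
  have t3 : ∀ a, τ a 3 = if a = y1 then 1 else 0 := fun a => by simp [τ]
  have t4 : ∀ a q, τ a (4 + q) = if a = y1 ∧ ¬ P 1 (y1 * wN N + (q + q + q)) then 1 else 0 := by
    intro a q
    simp only [τ]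
    rw [if_neg (by omega), if_neg (by omega), if_neg (by omega), if_neg (by omega),
      show 4 + q - 4 = q by omega]
  refine ⟨x, hxr, P, τ, fun a κ => ?_, fun c hc => ?_, fun i _ i' _ h0 h1 => ?_⟩
  · simp only [τ]
    split_ifs <;> simp
  · rcases mem_cls.1 hc with rfl | rfl | rfl | rfl | ⟨y, hy, rfl | rfl | ⟨v, hv, rfl⟩ |
      ⟨q, hq, rfl | rfl⟩⟩
    · simp only [tru_pos, t0]
      simp
    · simp only [tru_pos, t1]
      simp
    · simp only [tru_neg, t0]
      rw [if_neg (by omega)]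
      simp
    · simp only [tru_neg, t1]
      rw [if_neg (by omega)]
      simp
    · simp only [tru_neg, tru_pos, t0, t2]
      rcases lt_trichotomy y y0 with h1 | h1 | h1
      · right; right
        rw [if_pos (by omega)]; simp
      · right; left
        rw [if_pos h1]; simp
      · left
        rw [if_neg (by omega)]; simp
    · simp only [tru_neg, tru_pos, t1, t3]
      rcases lt_trichotomy y y1 with h1 | h1 | h1
      · right; right
        rw [if_pos (by omega)]; simp
      · right; left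
        rw [if_pos h1]; simp
      · left
        rw [if_neg (by omega)]; simp
    · simp only [tru_neg, tru_con, t2]
      by_cases hyy : y = y0
      · right
        rw [hyy]
        cases hαv : α v with
        | true => right; exact (hP0 _).2 ⟨v, hv, by simp [hαv]⟩
        | false => left; exact (hP0 _).2 ⟨v, hv, by simp [hαv]⟩
      · left
        rw [if_neg hyy]; simp
    · simp only [tru_neg, tru_con, tru_pos, t3, t4]
      by_cases hyy : y = y1
      · right
        rw [hyy]
        by_cases hp : P 1 (y1 * wN N + (q + q + q))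
        · exact Or.inl hp
        · right
          rw [if_pos ⟨rfl, hp⟩]; simp
      · left
        rw [if_neg hyy]; simp
    · simp only [tru_neg, tru_con, t4]
      by_cases hyy : y = y1
      · rw [hyy]
        by_cases hp : P 1 (y1 * wN N + (q + q + q))
        · left
          rw [if_neg (fun h => h.2 hp)]; simp
        · right
          rcases hT q with hT0 | hT1 | hT2
          · exact absurd ((hP1 _).2 ⟨q, hq, 0, by omega, rfl, hT0⟩) hp
          · left
            exact (hP1 _).2 ⟨q, hq, 1, by omega, rfl, hT1⟩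
          · right
            exact (hP1 _).2 ⟨q, hq, 2, by omega, rfl, hT2⟩
      · left
        rw [if_neg (fun h => hyy h.1)]; simp
  · obtain ⟨v, hv, rfl⟩ := (hP0 _).1 h0
    obtain ⟨q, hq, p, hp, rfl, hTq⟩ := (hP1 _).1 h1
    show cfc N t Φ x _ _ = false
    rw [cfc_block hy0t hy1t (by unfold wN; split_ifs <;> omega) (by unfold wN; omega), hgd]
    simp only
    unfold cfo
    rw [hg]
    have e1 : (q + q + q + p) / 3 = q := by omega
    have e2 : (q + q + q + p) % 3 = p := by omega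
    rw [e1, e2]
    cases hqc : φ[q]? with
    | none => simp
    | some c =>
      have hl := hTq c hqc
      simp only [Bool.not_true, Bool.false_or, decide_eq_false_iff_not]
      intro heq
      unfold ng at heq
      have hvl : v = (litN c p).2 := by split_ifs at heq <;> omega
      rw [hvl, hl] at heq
      cases hl1 : (litN c p).1 <;> rw [hl1] at heq <;> simp at heq

/-- The composition. -/
def cmb (A : List (List Bool)) (h r t N : ℕ) (Φ : List F3) : Inst := inst (dat A h r t N Φ)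

theorem cmb_iff (hH : Host A h r) (hh : 0 < h) (hr : 1 ≤ r) (hN : 0 < N) (hth : t * wN N ≤ h)
    (hl : Φ.length ≤ r * t * t) :
    Yes (cmb A h r t N Φ) ↔ ∃ φ ∈ Φ, good N φ = true ∧ SAT3 φ := by
  unfold cmb
  rw [yes_iff_sol hH hh hr (ok_dat hth)]
  constructor
  · exact sat_of_sol hN hth
  · rintro ⟨φ, hφ, hg, hs⟩
    exact sol_of_sat hl hφ hg hs

theorem wf_cmb (hh : 0 < h) : WF (cmb A h r t N Φ) := wf_inst hh

theorem tf_cmb (hH : Host A h r) (hth : t * wN N ≤ h) : TF (cmb A h r t N Φ) :=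
  tf_inst hH (ok_dat hth)

theorem len_cls (N t : ℕ) : (cls N t).length = 4 + t * (2 + 5 * N) := by
  simp only [cls, List.length_append, List.length_cons, List.length_flatMap, List.length_nil,
    List.length_map, List.length_range, List.map_const', List.sum_replicate, smul_eq_mul]
  ring

theorem k_cmb : (cmb A h r t N Φ).2 = 4 * h + (t + 1) * (N + 4) + 4 * (4 + t * (2 + 5 * N)) := by
  show kk _ = _
  unfold kk dat
  simp only
  rw [len_cls]
  ring

theorem k_le (ht : 0 < t) (hN : 0 < N) (hth : t * wN N ≤ h) :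
    (cmb A h r t N Φ).2 ≤ 30 * h := by
  rw [k_cmb]
  unfold wN at hth
  have h1 : 1 ≤ t * N := Nat.mul_pos ht hN
  have h2 : t ≤ t * N := Nat.le_mul_of_pos_right t hN
  have h3 : N ≤ t * N := Nat.le_mul_of_pos_left N ht
  nlinarith

end

end Pool.Agent.H801.Tri
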