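import Pool.Agent.H801.Fvs.Defs

/-!
# INDEPENDENT SET on triangle-free graphs: definitions
-/

namespace Pool.Agent.H801.Tri

open Pool.Agent.NPC
open Pool.Agent.H801.Fvs (ent graph)

/-- A pair `(G, k)`, the graph being given by its adjacency matrix. -/
abbrev Inst : Type := List (List Bool) × ℕ

/-- The first component is the adjacency matrix of a finite simple graph, and `k` is positive. -/
def WF (I : Inst) : Prop :=
  (∀ r ∈ I.1, r.length = I.1.length) ∧ (∀ a b, ent I.1 a b = ent I.1 b a) ∧
    (∀ a, ent I.1 a a = false) ∧ 0 < I.2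

/-- The graph is triangle-free. -/
def TF (I : Inst) : Prop := (graph I.1).CliqueFree 3

/-- The graph has an independent set with at least `k` vertices. -/
def Yes (I : Inst) : Prop :=
  ∃ S : Finset (Fin I.1.length), (graph I.1).IsIndepSet (S : Set (Fin I.1.length)) ∧ I.2 ≤ S.card

/-- INDEPENDENT SET ON TRIANGLE-FREE GRAPHS has a kernelization whose output graph has order
`O(k)`. -/
def LinearKernel : Prop :=
  ∃ (K : List Bool → List Bool) (f : ℕ → ℕ) (c : ℕ), PolyTime K ∧ Computable f ∧
    ∀ I : Inst, WF I → TF I → ∃ J : Inst, WF J ∧ TF J ∧ K (bits I) = bits J ∧ (Yes J ↔ Yes I) ∧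
      J.2 ≤ f I.2 ∧ J.1.length ≤ c * I.2 + c

/-- A polynomial-time algorithm maps every instance `(G, k)` with a triangle-free graph to an
equivalent instance of INDEPENDENT SET on a graph (not necessarily triangle-free) of order
`O(k ^ (101 / 100))`. -/
def SmallKernel : Prop :=
  ∃ (K : List Bool → List Bool) (c : ℕ), PolyTime K ∧
    ∀ I : Inst, WF I → TF I → ∃ J : Inst, WF J ∧ K (bits I) = bits J ∧ (Yes J ↔ Yes I) ∧
      J.1.length ^ 100 ≤ c * (I.2 + 1) ^ 101

/-- A polynomial-time algorithm maps every instance `(G, k)` with a triangle-free graph to a string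
of `O(k ^ (101 / 50))` bits, such that the yes-instances are those mapped to strings in a certain
(arbitrary) set `B`. -/
def SmallCompression : Prop :=
  ∃ (K : List Bool → List Bool) (B : Set (List Bool)) (c : ℕ), PolyTime K ∧
    ∀ I : Inst, WF I → TF I → (K (bits I) ∈ B ↔ Yes I) ∧
      (K (bits I)).length ^ 50 ≤ c * (I.2 + 1) ^ 101

end Pool.Agent.H801.Tri
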