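import Pool.Agent.H801.Tri.Ham
import Pool.Agent.H801.Fvs.Defs

/-!
# The host graph: large Hamming distances
-/

namespace Pool.Agent.H801.Tri

open Pool.Agent.H801.Fvs (ent)

/-- The properties of the host graph used in the reduction. Its vertices are the numbers below
`h + h`; the numbers from `h` on are the mandatory ones. -/
structure Host (A : List (List Bool)) (h r : ℕ) : Prop where
  symm : ∀ i j, ent A i j = ent A j i
  irr : ∀ i, ent A i i = false
  tri : ∀ i j k, ent A i j = true → ent A j k = true → ent A i k = true → False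
  exp : ∀ H : Finset ℕ, H ⊆ Finset.range (h + h) → H.Nonempty →
    (∀ i ∈ H, ∀ j ∈ H, ent A i j = false) →
    r * H.card ≤ ((Finset.range (h + h)).filter
      (fun j => h ≤ j ∧ ∃ i ∈ H, ent A i j = true)).card
  conn : ∀ (NE : ℕ → Prop) (c : ℕ → ℕ), (∀ j, h ≤ j → j < h + h → NE j) →
    (∀ i < h + h, ∀ j < h + h, NE i → NE j → ent A i j = true → c i = c j) →
    ∀ i < h + h, NE i → c i = c h

/-- The adjacency matrix of the host graph. -/
def mat (g : ℕ) : List (List Bool) :=
  (words (3 * g)).map (fun u => (words (3 * g)).map (fun v => decide (2 * g + 1 ≤ ham u v)))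

/-- The word with a given number. -/
def wd (g i : ℕ) : List Bool := (words (3 * g)).getD i []

theorem ent_mat {g i j : ℕ} : ent (mat g) i j = true ↔
    i < 2 ^ (3 * g) ∧ j < 2 ^ (3 * g) ∧ 2 * g + 1 ≤ ham (wd g i) (wd g j) := by
  have hl := words_length (3 * g)
  unfold ent mat wd
  rw [List.getD_eq_getElem?_getD, List.getD_eq_getElem?_getD, List.getD_eq_getElem?_getD,
    List.getD_eq_getElem?_getD]
  by_cases hi : i < 2 ^ (3 * g)
  · by_cases hj : j < 2 ^ (3 * g)
    · have hi' : i < (words (3 * g)).length := by omega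
      have hj' : j < (words (3 * g)).length := by omega
      simp [hi, hj, hi', hj']
    · have hi' : i < (words (3 * g)).length := by omega
      have hj' : (words (3 * g)).length ≤ j := by omega
      simp [hj, hi', hj']
  · have hi' : (words (3 * g)).length ≤ i := by omega
    simp [hi, hi']

theorem wd_mem {g i : ℕ} (hi : i < 2 ^ (3 * g)) : wd g i ∈ W (3 * g) := by
  have hl := words_length (3 * g)
  unfold wd W
  rw [List.mem_toFinset, List.getD_eq_getElem _ _ (by omega)]
  exact List.getElem_mem _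

theorem wd_len {g i : ℕ} (hi : i < 2 ^ (3 * g)) : (wd g i).length = 3 * g := mem_W.1 (wd_mem hi)

theorem wd_inj {g i j : ℕ} (hi : i < 2 ^ (3 * g)) (hj : j < 2 ^ (3 * g)) (h : wd g i = wd g j) :
    i = j := by
  have hl := words_length (3 * g)
  unfold wd at h
  rw [List.getD_eq_getElem _ _ (by omega), List.getD_eq_getElem _ _ (by omega)] at h
  exact (List.Nodup.getElem_inj_iff (words_nodup _)).1 h

theorem exists_wd {g : ℕ} {w : List Bool} (hw : w ∈ W (3 * g)) : ∃ i < 2 ^ (3 * g), wd g i = w := by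
  have hl := words_length (3 * g)
  unfold W at hw
  rw [List.mem_toFinset] at hw
  obtain ⟨i, hi, rfl⟩ := List.getElem_of_mem hw
  refine ⟨i, by omega, ?_⟩
  unfold wd
  rw [List.getD_eq_getElem _ _ hi]

/-- The mandatory numbers belong to the words starting with `true`. -/
theorem wd_head {g i : ℕ} (hg : 0 < g) (hi : i < 2 ^ (3 * g)) :
    ∃ b u, wd g i = b :: u ∧ (2 ^ (3 * g - 1) ≤ i ↔ b = true) := by
  have hw := words_length (3 * g - 1)
  obtain ⟨n, hn⟩ : ∃ n, 3 * g = n + 1 := ⟨3 * g - 1, by omega⟩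
  have hn' : 3 * g - 1 = n := by omega
  rw [hn'] at hw ⊢
  unfold wd
  rw [hn] at hi ⊢
  have hl := words_length (n + 1)
  rw [List.getD_eq_getElem _ _ (by omega)]
  simp only [words]
  rw [List.getElem_append]
  split_ifs with h
  · rw [List.length_map, hw] at h
    rw [List.getElem_map]
    exact ⟨false, _, rfl, by simp; omega⟩
  · rw [List.length_map, hw] at h
    rw [List.getElem_map]
    exact ⟨true, _, rfl, by simp; omega⟩

theorem half_eq {g : ℕ} (hg : 0 < g) : 2 ^ (3 * g - 1) + 2 ^ (3 * g - 1) = 2 ^ (3 * g) := by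
  obtain ⟨n, hn⟩ : ∃ n, 3 * g = n + 1 := ⟨3 * g - 1, by omega⟩
  have hn' : 3 * g - 1 = n := by omega
  rw [hn', hn, pow_succ]
  ring

/-- Words at small distance are connected: a function which does not change when a letter is changed
is constant. -/
theorem const_of_step : ∀ (n : ℕ) (G : List Bool → ℕ),
    (∀ u v : List Bool, u.length = n → v.length = n → ham u v ≤ 1 → G u = G v) →
    ∀ u v : List Bool, u.length = n → v.length = n → G u = G v
  | 0, G, _, u, v, hu, hv => by
    rw [List.eq_nil_of_length_eq_zero hu, List.eq_nil_of_length_eq_zero hv]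
  | n + 1, G, h, [], v, hu, hv => by simp at hu
  | n + 1, G, h, a :: u, [], hu, hv => by simp at hv
  | n + 1, G, h, a :: u, b :: v, hu, hv => by
    have hu' : u.length = n := by simpa using hu
    have hv' : v.length = n := by simpa using hv
    have h1 : G (a :: u) = G (b :: u) := by
      refine h _ _ hu (by simpa using hu') ?_
      rw [ham_cons, ham_self]
      split_ifs <;> omega
    rw [h1]
    refine const_of_step n (fun w => G (b :: w)) (fun u v hu hv huv => ?_) u v hu' hv'
    refine h _ _ (by simpa using hu) (by simpa using hv) ?_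
    rw [ham_cons]
    simpa using huv

theorem mat_conn {g : ℕ} (hg : 3 ≤ g) (NE : ℕ → Prop) (c : ℕ → ℕ)
    (hM : ∀ j, 2 ^ (3 * g - 1) ≤ j → j < 2 ^ (3 * g) → NE j)
    (h : ∀ i < 2 ^ (3 * g), ∀ j < 2 ^ (3 * g), NE i → NE j → ent (mat g) i j = true → c i = c j) :
    ∀ i < 2 ^ (3 * g), NE i → c i = c (2 ^ (3 * g - 1)) := by
  classical
  have hh := half_eq (g := g) (by omega)
  have hpos : 0 < 2 ^ (3 * g - 1) := by positivity
  -- numbers with words at distance at most one
  have key : ∀ i < 2 ^ (3 * g), ∀ j < 2 ^ (3 * g), NE i → NE j → ham (wd g i) (wd g j) ≤ 1 →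
      c i = c j := by
    intro i hi j hj hNi hNj hij
    obtain ⟨b, u, hbu, _⟩ := wd_head (g := g) (by omega) hi
    have hli := wd_len hi
    have hlj := wd_len hj
    have hlu : u.length + 1 = 3 * g := by rw [hbu] at hli; simpa using hli
    have hv : (true :: u.map not) ∈ W (3 * g) := by rw [mem_W]; simpa using hlu
    obtain ⟨k, hk, hkw⟩ := exists_wd hv
    obtain ⟨b', u', hb', hk'⟩ := wd_head (g := g) (by omega) hk
    have hb'' : b' = true := by rw [hkw] at hb'; simp at hb'; exact hb'.1
    have hNk : NE k := hM k (hk'.2 hb'') hk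
    have h1 : u.length ≤ ham (wd g i) (wd g k) := by
      rw [hkw, hbu, ham_cons]
      have := ham_not u u rfl
      rw [ham_self, ham_comm] at this
      omega
    -- the other one
    have h2 : u.length ≤ ham (wd g j) (wd g k) + 1 := by
      obtain ⟨d, v, hdv, _⟩ := wd_head (g := g) (by omega) hj
      have hlv : v.length + 1 = 3 * g := by rw [hdv] at hlj; simpa using hlj
      rw [hkw, hdv, ham_cons]
      rw [hbu, hdv, ham_cons] at hij
      have := ham_le_one_not (u := u) (v := v) (by omega) (by omega)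
      omega
    have e1 := h i hi k hk hNi hNk (ent_mat.2 ⟨hi, hk, by omega⟩)
    have e2 := h j hj k hk hNj hNk (ent_mat.2 ⟨hj, hk, by omega⟩)
    rw [e1, e2]
  -- the numbers of the words
  have hidx : ∀ w : List Bool, ∃ i : ℕ, w.length = 3 * g → i < 2 ^ (3 * g) ∧ wd g i = w := by
    intro w
    by_cases hw : w.length = 3 * g
    · obtain ⟨i, hi, hiw⟩ := exists_wd (mem_W.2 hw)
      exact ⟨i, fun _ => ⟨hi, hiw⟩⟩
    · exact ⟨0, fun h => absurd h hw⟩
  choose idx hidx using hidx
  have hM' : ∀ u : List Bool, u.length = 3 * g - 1 → NE (idx (true :: u)) := by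
    intro u hu
    obtain ⟨h1, h2⟩ := hidx (true :: u) (by simp; omega)
    obtain ⟨b, v, hb, hk⟩ := wd_head (g := g) (by omega) h1
    exact hM _ (hk.2 (by rw [h2] at hb; simp at hb; exact hb.1)) h1
  have hconst := const_of_step (3 * g - 1) (fun u => c (idx (true :: u))) (fun u v hu hv huv => by
    obtain ⟨h1, h2⟩ := hidx (true :: u) (by simp; omega)
    obtain ⟨h3, h4⟩ := hidx (true :: v) (by simp; omega)
    refine key _ h1 _ h3 (hM' u hu) (hM' v hv) ?_
    rw [h2, h4, ham_cons]
    simpa using huv)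
  have hone : ∀ i < 2 ^ (3 * g), NE i → ∃ u : List Bool, u.length = 3 * g - 1 ∧
      c i = c (idx (true :: u)) := by
    intro i hi hNi
    obtain ⟨b, u, hbu, _⟩ := wd_head (g := g) (by omega) hi
    have hli := wd_len hi
    have hlu : u.length + 1 = 3 * g := by rw [hbu] at hli; simpa using hli
    obtain ⟨h1, h2⟩ := hidx (true :: u) (by simp; omega)
    refine ⟨u, by omega, key _ hi _ h1 hNi (hM' u (by omega)) ?_⟩
    rw [hbu, h2, ham_cons, ham_self]
    split_ifs <;> omega
  intro i hi hNi
  obtain ⟨u, hu, e1⟩ := hone i hi hNi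
  obtain ⟨v, hv, e2⟩ := hone (2 ^ (3 * g - 1)) (by omega) (hM _ le_rfl (by omega))
  rw [e1, e2]
  exact hconst u v hu hv

theorem mat_exp {g r : ℕ} (hg : 2 ≤ g) (hr : 144 * r * 729 ^ g ≤ 768 ^ g) (H : Finset ℕ)
    (hH : H ⊆ Finset.range (2 ^ (3 * g))) (hne : H.Nonempty)
    (hind : ∀ i ∈ H, ∀ j ∈ H, ent (mat g) i j = false) :
    r * H.card ≤ ((Finset.range (2 ^ (3 * g))).filter
      (fun j => 2 ^ (3 * g - 1) ≤ j ∧ ∃ i ∈ H, ent (mat g) i j = true)).card := by
  classical
  have hh := half_eq (g := g) (by omega)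
  have h8 : (2 : ℕ) ^ (3 * g) = 8 ^ g := by rw [pow_mul]; norm_num
  set A : Finset (List Bool) := H.image (wd g) with hA
  have hAc : A.card = H.card := by
    rw [hA]
    apply Finset.card_image_of_injOn
    intro i hi j hj hij
    exact wd_inj (Finset.mem_range.1 (hH hi)) (Finset.mem_range.1 (hH hj)) hij
  have hAW : A ⊆ W (3 * g) := by
    intro w hw
    rw [hA, Finset.mem_image] at hw
    obtain ⟨i, hi, rfl⟩ := hw
    exact wd_mem (Finset.mem_range.1 (hH hi))
  set X : Finset (List Bool) := (W (3 * g)).filter (fun w => ∀ a ∈ A, ham a w ≤ 2 * g) with hX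
  have hXW : X ⊆ W (3 * g) := Finset.filter_subset _ _
  have hAX : A ⊆ X := by
    intro w hw
    rw [hX, Finset.mem_filter]
    refine ⟨hAW hw, fun a ha => ?_⟩
    rw [hA, Finset.mem_image] at hw ha
    obtain ⟨i, hi, rfl⟩ := hw
    obtain ⟨j, hj, rfl⟩ := ha
    have h1 := hind j hj i hi
    by_contra hcon
    rw [Bool.eq_false_iff] at h1
    exact h1 (ent_mat.2 ⟨Finset.mem_range.1 (hH hj), Finset.mem_range.1 (hH hi), by omega⟩)
  have hcr : A.card * X.card * 16 ^ g ≤ 729 ^ g :=
    cross_bound hAW hXW (fun a ha b hb => (Finset.mem_filter.1 hb).2 a ha)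
  have hAXc : A.card ≤ X.card := Finset.card_le_card hAX
  set NM := (Finset.range (2 ^ (3 * g))).filter
      (fun j => 2 ^ (3 * g - 1) ≤ j ∧ ∃ i ∈ H, ent (mat g) i j = true) with hNM
  rw [← hAc]
  by_cases hcase : 4 * X.card ≤ 8 ^ g
  · -- few non-neighbours
    have h1 : 2 ^ (3 * g - 1) ≤ NM.card + X.card := by
      have h2 : (Finset.Ico (2 ^ (3 * g - 1)) (2 ^ (3 * g))) ⊆
          NM ∪ (Finset.range (2 ^ (3 * g))).filter (fun j => wd g j ∈ X) := by
        intro j hj
        rw [Finset.mem_Ico] at hj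
        rw [Finset.mem_union, Finset.mem_filter, Finset.mem_filter, Finset.mem_range]
        by_cases hjX : wd g j ∈ X
        · exact Or.inr ⟨hj.2, hjX⟩
        · refine Or.inl ⟨hj.2, hj.1, ?_⟩
          rw [hX, Finset.mem_filter] at hjX
          push Not at hjX
          obtain ⟨a, ha, hlt⟩ := hjX (wd_mem hj.2)
          rw [hA, Finset.mem_image] at ha
          obtain ⟨i, hi, rfl⟩ := ha
          exact ⟨i, hi, ent_mat.2 ⟨Finset.mem_range.1 (hH hi), hj.2, by omega⟩⟩
      have h3 := Finset.card_le_card h2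
      have h4 : ((Finset.range (2 ^ (3 * g))).filter (fun j => wd g j ∈ X)).card ≤ X.card := by
        apply Finset.card_le_card_of_injOn (wd g)
        · intro j hj
          exact (Finset.mem_filter.1 hj).2
        · intro i hi j hj hij
          exact wd_inj (Finset.mem_range.1 (Finset.mem_filter.1 hi).1)
            (Finset.mem_range.1 (Finset.mem_filter.1 hj).1) hij
      rw [Nat.card_Ico] at h3
      have h5 := Finset.card_union_le NM ((Finset.range (2 ^ (3 * g))).filter (fun j => wd g j ∈ X))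
      omega
    have h2 : A.card * 4 ^ g ≤ 27 ^ g := by
      have h3 : (A.card * 4 ^ g) ^ 2 ≤ (27 ^ g) ^ 2 := by
        calc (A.card * 4 ^ g) ^ 2 = A.card * A.card * 16 ^ g := by
              rw [mul_pow, ← pow_mul, mul_comm g 2, pow_mul, show (4 : ℕ) ^ 2 = 16 by norm_num]; ring
          _ ≤ A.card * X.card * 16 ^ g := by gcongr
          _ ≤ 729 ^ g := hcr
          _ = (27 ^ g) ^ 2 := by rw [← pow_mul, mul_comm g 2, pow_mul]; norm_num
      exact (Nat.pow_le_pow_iff_left (by norm_num)).1 h3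
    have h3 : 4 * r * 27 ^ g ≤ 32 ^ g := by
      have h4 : (4 * r * 27 ^ g) * 729 ^ g ≤ 32 ^ g * 729 ^ g := by
        calc (4 * r * 27 ^ g) * 729 ^ g ≤ (144 * r * 27 ^ g) * 729 ^ g := by gcongr; norm_num
          _ = (144 * r * 729 ^ g) * 27 ^ g := by ring
          _ ≤ 768 ^ g * 27 ^ g := by gcongr
          _ = (768 * 27) ^ g := by rw [mul_pow]
          _ ≤ (32 * 729) ^ g := Nat.pow_le_pow_left (by norm_num) g
          _ = 32 ^ g * 729 ^ g := by rw [mul_pow]
      exact Nat.le_of_mul_le_mul_right h4 (by positivity)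
    have h4 : 4 * (r * A.card) ≤ 8 ^ g := by
      have h5 : 4 * (r * A.card) * 4 ^ g ≤ 8 ^ g * 4 ^ g := by
        calc 4 * (r * A.card) * 4 ^ g = 4 * r * (A.card * 4 ^ g) := by ring
          _ ≤ 4 * r * 27 ^ g := by gcongr
          _ ≤ 32 ^ g := h3
          _ = 8 ^ g * 4 ^ g := by rw [← mul_pow]; norm_num
      exact Nat.le_of_mul_le_mul_right h5 (by positivity)
    rw [h8] at hh
    omega
  · -- many non-neighbours
    have h1 : A.card * 128 ^ g ≤ 4 * 729 ^ g := by
      calc A.card * 128 ^ g = A.card * 8 ^ g * 16 ^ g := by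
            rw [show (128 : ℕ) = 8 * 16 by norm_num, mul_pow]; ring
        _ ≤ A.card * (4 * X.card) * 16 ^ g := by gcongr; omega
        _ = 4 * (A.card * X.card * 16 ^ g) := by ring
        _ ≤ 4 * 729 ^ g := by gcongr
    have h2 : 36 * (r * A.card) ≤ 6 ^ g := by
      have h3 : 36 * (r * A.card) * 128 ^ g ≤ 6 ^ g * 128 ^ g := by
        calc 36 * (r * A.card) * 128 ^ g = 36 * r * (A.card * 128 ^ g) := by ring
          _ ≤ 36 * r * (4 * 729 ^ g) := by gcongr
          _ = 144 * r * 729 ^ g := by ring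
          _ ≤ 768 ^ g := hr
          _ = 6 ^ g * 128 ^ g := by rw [← mul_pow]; norm_num
      exact Nat.le_of_mul_le_mul_right h3 (by positivity)
    obtain ⟨k, rfl⟩ : ∃ k, g = k + 2 := ⟨g - 2, by omega⟩
    have h3 : r * A.card ≤ 6 ^ k := by
      rw [pow_add] at h2
      omega
    refine h3.trans ((choose_ge k).trans ?_)
    obtain ⟨i, hi⟩ := hne
    have hi2 := Finset.mem_range.1 (hH hi)
    obtain ⟨b, u, hbu, _⟩ := wd_head (g := k + 2) (by omega) hi2
    have hli := wd_len hi2
    have hlu : u.length = 3 * k + 5 := by rw [hbu] at hli; simp at hli; omega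
    rw [← card_ham_eq (3 * k + 5) u hlu (2 * k + 5)]
    have hidx : ∀ w : List Bool, ∃ i : ℕ, w.length = 3 * (k + 2) → i < 2 ^ (3 * (k + 2)) ∧
        wd (k + 2) i = w := by
      intro w
      by_cases hw : w.length = 3 * (k + 2)
      · obtain ⟨i, hi, hiw⟩ := exists_wd (mem_W.2 hw)
        exact ⟨i, fun _ => ⟨hi, hiw⟩⟩
      · exact ⟨0, fun h => absurd h hw⟩
    choose idx hidx using hidx
    apply Finset.card_le_card_of_injOn (fun w => idx (true :: w))
    · intro w hw
      have hw' := Finset.mem_filter.1 hw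
      have hlw := mem_W.1 hw'.1
      obtain ⟨e1, e2⟩ := hidx (true :: w) (by simp [hlw]; omega)
      obtain ⟨d, v, hdv, hk⟩ := wd_head (g := k + 2) (by omega) e1
      rw [hNM, Finset.mem_coe, Finset.mem_filter, Finset.mem_range]
      refine ⟨e1, hk.2 (by rw [e2] at hdv; simp at hdv; exact hdv.1), i, hi,
        ent_mat.2 ⟨hi2, e1, ?_⟩⟩
      rw [e2, hbu, ham_cons, hw'.2]
      omega
    · intro w hw w' hw' hww
      have hlw := mem_W.1 (Finset.mem_filter.1 hw).1
      have hlw' := mem_W.1 (Finset.mem_filter.1 hw').1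
      obtain ⟨_, e2⟩ := hidx (true :: w) (by simp [hlw]; omega)
      obtain ⟨_, e4⟩ := hidx (true :: w') (by simp [hlw']; omega)
      simp only at hww
      rw [hww, e4] at e2
      simpa using e2.symm

/-- The host graph. -/
theorem host {g r : ℕ} (hg : 3 ≤ g) (hr : 144 * r * 729 ^ g ≤ 768 ^ g) :
    Host (mat g) (2 ^ (3 * g - 1)) r := by
  have hh := half_eq (g := g) (by omega)
  refine ⟨fun i j => ?_, fun i => ?_, fun i j k h1 h2 h3 => ?_, ?_, ?_⟩
  · rw [Bool.eq_iff_iff, ent_mat, ent_mat, ham_comm]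
    tauto
  · rw [Bool.eq_false_iff]
    intro h
    have := (ent_mat.1 h).2.2
    rw [ham_self] at this
    omega
  · rw [ent_mat] at h1 h2 h3
    have := ham_triangle (wd g i) (wd g j) (wd g k) (by rw [wd_len h1.1, wd_len h1.2.1])
      (by rw [wd_len h1.2.1, wd_len h2.2.1])
    rw [wd_len h1.1] at this
    omega
  · rw [hh]
    exact mat_exp (by omega) hr
  · rw [hh]
    exact mat_conn hg

end Pool.Agent.H801.Tri
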