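import Pool.Agent.H801.Tri.Defs
import Pool.Agent.H801.Tri.Host

/-!
# The graph of the reduction
-/

namespace Pool.Agent.H801.Tri

open Pool.Agent.NPC
open Pool.Agent.H801.Fvs (ent graph)

/-- Labels of vertices. -/
abbrev E : Type := ℕ × ℕ × ℕ × ℕ

/-- All labels of one kind. -/
def cube (κ a b c : ℕ) : List E :=
  (List.range a).flatMap (fun x => (List.range b).flatMap (fun y =>
    (List.range c).map (fun z => ((κ, x, y, z) : E))))

theorem mem_cube {κ a b c : ℕ} {e : E} :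
    e ∈ cube κ a b c ↔ e.1 = κ ∧ e.2.1 < a ∧ e.2.2.1 < b ∧ e.2.2.2 < c := by
  unfold cube
  simp only [List.mem_flatMap, List.mem_range, List.mem_map]
  constructor
  · rintro ⟨x, hx, y, hy, z, hz, rfl⟩
    exact ⟨rfl, hx, hy, hz⟩
  · rintro ⟨h1, h2, h3, h4⟩
    exact ⟨e.2.1, h2, e.2.2.1, h3, e.2.2.2, h4, by rw [← h1]⟩

theorem cube_nodup (κ a b c : ℕ) : (cube κ a b c).Nodup := by
  unfold cube
  rw [List.nodup_flatMap]
  refine ⟨fun x _ => ?_, ?_⟩
  · rw [List.nodup_flatMap]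
    refine ⟨fun y _ => List.Nodup.map (fun a b h => by simpa using h) List.nodup_range, ?_⟩
    refine List.Pairwise.imp ?_ List.nodup_range
    intro y y' hyy e he he'
    rw [List.mem_map] at he he'
    obtain ⟨z, _, rfl⟩ := he
    obtain ⟨z', _, hz'⟩ := he'
    simp only [Prod.mk.injEq, true_and] at hz'
    exact hyy hz'.1.symm
  · refine List.Pairwise.imp ?_ List.nodup_range
    intro x x' hxx e he he'
    simp only [List.mem_flatMap, List.mem_map] at he he'
    obtain ⟨y, _, z, _, rfl⟩ := he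
    obtain ⟨y', _, z', _, hz'⟩ := he'
    simp only [Prod.mk.injEq, true_and] at hz'
    exact hxx hz'.1.symm

/-- The data from which the graph is made. -/
structure Dat where
  /-- the adjacency matrix of the host graph -/
  A : List (List Bool)
  /-- half of the order of the host graph -/
  h : ℕ
  /-- the number of rows -/
  r : ℕ
  /-- the number of auxiliary variables of a kind -/
  na : ℕ
  /-- the number of kinds of auxiliary variables -/
  nk : ℕ
  /-- the clauses; each literal is given by the vertex whose presence makes it false -/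
  cls : List (E × E × E)
  /-- the conflicts between the two sides -/
  cf : ℕ → ℕ → ℕ → Bool

/-- a clause -/
def dfl : E × E × E := ((0, 0, 0, 0), (0, 0, 0, 0), (0, 0, 0, 0))

/-- The vertices. -/
def labs (D : Dat) : List E :=
  cube 0 2 D.r (D.h + D.h) ++ (cube 1 2 D.h 1 ++ (cube 2 D.na 2 D.nk ++ cube 3 D.cls.length 9 1))

/-- Adjacency, in one direction. -/
def adjA (D : Dat) (x y : E) : Prop :=
  (x.1 = 0 ∧ y.1 = 0 ∧ x.2.1 = y.2.1 ∧ ¬ x.2.2.1 = y.2.2.1 ∧ ent D.A x.2.2.2 y.2.2.2 = true) ∨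
  (x.1 = 0 ∧ y.1 = 0 ∧ x.2.1 = 0 ∧ y.2.1 = 1 ∧
    ((x.2.2.1 = y.2.2.1 ∧ x.2.2.2 < D.h ∧ y.2.2.2 < D.h ∧ D.cf x.2.2.1 x.2.2.2 y.2.2.2 = true) ∨
      (¬ x.2.2.1 = y.2.2.1 ∧ x.2.2.2 = D.h ∧ y.2.2.2 = D.h))) ∨
  (x.1 = 1 ∧ y.1 = 0 ∧ x.2.1 = y.2.1 ∧ x.2.2.1 = y.2.2.2) ∨
  (x.1 = 2 ∧ y.1 = 2 ∧ x.2.1 = y.2.1 ∧ x.2.2.2 = y.2.2.2 ∧ x.2.2.1 = 0 ∧ y.2.2.1 = 1) ∨
  (x.1 = 3 ∧ y.1 = 3 ∧ x.2.1 = y.2.1 ∧
    (x.2.2.1 + 1 = y.2.2.1 ∨ (x.2.2.1 = 0 ∧ y.2.2.1 = 8))) ∨
  (x.1 = 3 ∧ ((x.2.2.1 = 0 ∧ y = (D.cls.getD x.2.1 dfl).1) ∨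
    (x.2.2.1 = 3 ∧ y = (D.cls.getD x.2.1 dfl).2.1) ∨
    (x.2.2.1 = 6 ∧ y = (D.cls.getD x.2.1 dfl).2.2)))

instance (D : Dat) (x y : E) : Decidable (adjA D x y) := by
  unfold adjA; infer_instance

/-- Adjacency. -/
def adjR (D : Dat) (x y : E) : Prop := ¬ x = y ∧ (adjA D x y ∨ adjA D y x)

instance (D : Dat) (x y : E) : Decidable (adjR D x y) := by
  unfold adjR; infer_instance

/-- The size of the independent set. -/
def kk (D : Dat) : ℕ :=
  (D.h + D.h + D.h + D.h) + D.na * D.nk +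
    (D.cls.length + D.cls.length + D.cls.length + D.cls.length)

/-- The instance. -/
def inst (D : Dat) : Inst :=
  ((labs D).map (fun x => (labs D).map (fun y => decide (adjR D x y))), kk D)

/-- A vertex representing a literal. -/
def okE (D : Dat) (e : E) : Prop :=
  (e.1 = 1 ∧ e.2.1 < 2 ∧ e.2.2.1 < D.h ∧ e.2.2.2 = 0) ∨
    (e.1 = 2 ∧ e.2.1 < D.na ∧ e.2.2.1 < 2 ∧ e.2.2.2 < D.nk)

/-- The literals are represented by vertices. -/
def ok (D : Dat) : Prop := ∀ c ∈ D.cls, okE D c.1 ∧ okE D c.2.1 ∧ okE D c.2.2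

theorem adjR_symm {D : Dat} {x y : E} (h : adjR D x y) : adjR D y x :=
  ⟨fun e => h.1 e.symm, h.2.symm⟩

theorem mem_labs {D : Dat} {e : E} : e ∈ labs D ↔
    (e.1 = 0 ∧ e.2.1 < 2 ∧ e.2.2.1 < D.r ∧ e.2.2.2 < D.h + D.h) ∨
    (e.1 = 1 ∧ e.2.1 < 2 ∧ e.2.2.1 < D.h ∧ e.2.2.2 < 1) ∨
    (e.1 = 2 ∧ e.2.1 < D.na ∧ e.2.2.1 < 2 ∧ e.2.2.2 < D.nk) ∨
    (e.1 = 3 ∧ e.2.1 < D.cls.length ∧ e.2.2.1 < 9 ∧ e.2.2.2 < 1) := by
  unfold labs
  rw [List.mem_append, List.mem_append, List.mem_append, mem_cube, mem_cube, mem_cube, mem_cube]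

theorem labs_nodup (D : Dat) : (labs D).Nodup := by
  unfold labs
  rw [List.nodup_append', List.nodup_append', List.nodup_append']
  refine ⟨cube_nodup .., ⟨cube_nodup .., ⟨cube_nodup .., cube_nodup .., ?_⟩, ?_⟩, ?_⟩
  · intro e h h'
    rw [mem_cube] at h h'
    omega
  · intro e h h'
    rw [List.mem_append, mem_cube, mem_cube] at h'
    rw [mem_cube] at h
    omega
  · intro e h h'
    rw [List.mem_append, List.mem_append, mem_cube, mem_cube, mem_cube] at h'
    rw [mem_cube] at h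
    omega

section

variable {D : Dat}

theorem ok_getD (hD : ok D) {i : ℕ} (hi : i < D.cls.length) :
    okE D (D.cls.getD i dfl).1 ∧ okE D (D.cls.getD i dfl).2.1 ∧ okE D (D.cls.getD i dfl).2.2 := by
  apply hD
  rw [List.getD_eq_getElem _ _ hi]
  exact List.getElem_mem _

theorem okE_kind {e : E} (h : okE D e) : e.1 = 1 ∨ e.1 = 2 := by
  rcases h with h | h
  · exact Or.inl h.1
  · exact Or.inr h.1

/-- the last kind of edges -/
theorem tgt_kind (hD : ok D) {x y : E} (hx : x ∈ labs D) (hx3 : x.1 = 3)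
    (h : (x.2.2.1 = 0 ∧ y = (D.cls.getD x.2.1 dfl).1) ∨
    (x.2.2.1 = 3 ∧ y = (D.cls.getD x.2.1 dfl).2.1) ∨
    (x.2.2.1 = 6 ∧ y = (D.cls.getD x.2.1 dfl).2.2)) : y.1 = 1 ∨ y.1 = 2 := by
  rw [mem_labs] at hx
  have hi : x.2.1 < D.cls.length := by omega
  obtain ⟨h1, h2, h3⟩ := ok_getD hD hi
  rcases h with ⟨_, rfl⟩ | ⟨_, rfl⟩ | ⟨_, rfl⟩
  · exact okE_kind h1
  · exact okE_kind h2
  · exact okE_kind h3

theorem k00 {r : ℕ} (hH : Host D.A D.h r) {x y : E} (h : adjR D x y) (hx0 : x.1 = 0)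
    (hy0 : y.1 = 0) :
    (x.2.1 = y.2.1 ∧ x.2.2.1 ≠ y.2.2.1 ∧ ent D.A x.2.2.2 y.2.2.2 = true) ∨
    (x.2.1 ≠ y.2.1 ∧ ((x.2.2.1 = y.2.2.1 ∧ x.2.2.2 < D.h ∧ y.2.2.2 < D.h) ∨
      (x.2.2.1 ≠ y.2.2.1 ∧ x.2.2.2 = D.h ∧ y.2.2.2 = D.h))) := by
  obtain ⟨_, h | h⟩ := h
  · rcases h with h | h | h | h | h | h
    · exact Or.inl ⟨h.2.2.1, h.2.2.2.1, h.2.2.2.2⟩
    · refine Or.inr ⟨by omega, ?_⟩
      rcases h.2.2.2.2 with h' | h'
      · exact Or.inl ⟨h'.1, h'.2.1, h'.2.2.1⟩
      · exact Or.inr h'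
    all_goals omega
  · rcases h with h | h | h | h | h | h
    · refine Or.inl ⟨h.2.2.1.symm, fun e => h.2.2.2.1 e.symm, ?_⟩
      rw [hH.symm]
      exact h.2.2.2.2
    · refine Or.inr ⟨by omega, ?_⟩
      rcases h.2.2.2.2 with h' | h'
      · exact Or.inl ⟨h'.1.symm, h'.2.2.1, h'.2.1⟩
      · exact Or.inr ⟨fun e => h'.1 e.symm, h'.2.2, h'.2.1⟩
    all_goals omega

theorem k10 {x y : E} (h : adjR D x y) (hx0 : x.1 = 1) (hy0 : y.1 = 0) : x.2.1 = y.2.1 ∧ x.2.2.1 = y.2.2.2 := by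
  obtain ⟨_, h | h⟩ := h
  · rcases h with h | h | h | h | h | h <;> omega
  · rcases h with h | h | h | h | h | h <;> omega

theorem k11 {x y : E} (h : adjR D x y) (hx0 : x.1 = 1) (hy0 : y.1 = 1) : False := by
  obtain ⟨_, h | h⟩ := h
  · rcases h with h | h | h | h | h | h <;> omega
  · rcases h with h | h | h | h | h | h <;> omega

theorem k2x {x y : E} (h : adjR D x y) (hx0 : x.1 = 2) (hy0 : y.1 ≤ 2) :
    y.1 = 2 ∧ x.2.2.1 + y.2.2.1 = 1 := by
  obtain ⟨_, h | h⟩ := h
  · rcases h with h | h | h | h | h | h <;> omega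
  · rcases h with h | h | h | h | h | h <;> omega

theorem k33 (hD : ok D) {x y : E} (hx : x ∈ labs D) (hy : y ∈ labs D) (h : adjR D x y)
    (hx0 : x.1 = 3) (hy0 : y.1 = 3) : x.2.1 = y.2.1 ∧ (x.2.2.1 + 1 = y.2.2.1 ∨
      y.2.2.1 + 1 = x.2.2.1 ∨ (x.2.2.1 = 0 ∧ y.2.2.1 = 8) ∨ (x.2.2.1 = 8 ∧ y.2.2.1 = 0)) := by
  obtain ⟨_, h | h⟩ := h
  · rcases h with h | h | h | h | h | h
    · omega
    · omega
    · omega
    · omega
    · exact ⟨h.2.2.1, by omega⟩
    · have := tgt_kind hD hx hx0 h.2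
      omega
  · rcases h with h | h | h | h | h | h
    · omega
    · omega
    · omega
    · omega
    · exact ⟨h.2.2.1.symm, by omega⟩
    · have := tgt_kind hD hy hy0 h.2
      omega

theorem k3e {x y : E} (h : adjR D x y) (hx0 : x.1 = 3) (hy0 : y.1 < 3) :
    (x.2.2.1 = 0 ∧ y = (D.cls.getD x.2.1 dfl).1) ∨
    (x.2.2.1 = 3 ∧ y = (D.cls.getD x.2.1 dfl).2.1) ∨
    (x.2.2.1 = 6 ∧ y = (D.cls.getD x.2.1 dfl).2.2) := by
  obtain ⟨_, h | h⟩ := h
  · rcases h with h | h | h | h | h | h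
    · omega
    · omega
    · omega
    · omega
    · omega
    · exact h.2
  · rcases h with h | h | h | h | h | h <;> omega

theorem no_triangle_sorted {r : ℕ} (hH : Host D.A D.h r) (hD : ok D) {x y z : E}
    (hx : x ∈ labs D) (hy : y ∈ labs D) (hz : z ∈ labs D) (h1 : adjR D x y) (h2 : adjR D y z)
    (h3 : adjR D x z) (o1 : x.1 ≤ y.1) (o2 : y.1 ≤ z.1) : False := by
  have mx := mem_labs.1 hx
  have my := mem_labs.1 hy
  have mz := mem_labs.1 hz
  by_cases hz3 : z.1 = 3
  · by_cases hy3 : y.1 = 3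
    · by_cases hx3 : x.1 = 3
      · have e1 := (k33 hD hx hy h1 hx3 hy3).2
        have e2 := (k33 hD hy hz h2 hy3 hz3).2
        have e3 := (k33 hD hx hz h3 hx3 hz3).2
        clear h1 h2 h3
        omega
      · have e1 := k3e (adjR_symm h1) hy3 (by omega)
        have e2 := (k33 hD hy hz h2 hy3 hz3).2
        have e3 := k3e (adjR_symm h3) hz3 (by omega)
        have f1 : y.2.2.1 = 0 ∨ y.2.2.1 = 3 ∨ y.2.2.1 = 6 := by
          rcases e1 with e | e | e
          · exact Or.inl e.1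
          · exact Or.inr (Or.inl e.1)
          · exact Or.inr (Or.inr e.1)
        have f3 : z.2.2.1 = 0 ∨ z.2.2.1 = 3 ∨ z.2.2.1 = 6 := by
          rcases e3 with e | e | e
          · exact Or.inl e.1
          · exact Or.inr (Or.inl e.1)
          · exact Or.inr (Or.inr e.1)
        clear e1 e3 h1 h2 h3
        omega
    · have e2 := k3e (adjR_symm h2) hz3 (by omega)
      have e3 := k3e (adjR_symm h3) hz3 (by omega)
      apply h1.1
      rcases e2 with e2 | e2 | e2 <;> rcases e3 with e3 | e3 | e3 <;>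
        first | omega | (rw [e2.2, e3.2])
  · by_cases hz2 : z.1 = 2
    · have e2 := k2x (adjR_symm h2) hz2 (by omega)
      have e3 := k2x (adjR_symm h3) hz2 (by omega)
      have e1 := k2x h1 e3.1 (by omega)
      omega
    · by_cases hz1 : z.1 = 1
      · by_cases hy1 : y.1 = 1
        · exact k11 h2 hy1 hz1
        · have e2 := k10 (adjR_symm h2) hz1 (by omega)
          have e3 := k10 (adjR_symm h3) hz1 (by omega)
          rcases k00 hH h1 (by omega) (by omega) with e1 | e1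
          · have e4 : x.2.2.2 = y.2.2.2 := by omega
            have e5 := e1.2.2
            rw [e4, hH.irr] at e5
            exact absurd e5 (by simp)
          · omega
      · have ex : x.1 = 0 := by omega
        have ey : y.1 = 0 := by omega
        have ez : z.1 = 0 := by omega
        have e1 := k00 hH h1 ex ey
        have e2 := k00 hH h2 ey ez
        have e3 := k00 hH h3 ex ez
        have irr : ∀ a b, a = D.h → b = D.h → ent D.A a b = true → False := by
          rintro a b rfl rfl h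
          rw [hH.irr] at h
          exact absurd h (by simp)
        rcases e1 with e1 | e1 <;> rcases e2 with e2 | e2 <;> rcases e3 with e3 | e3
        · exact hH.tri _ _ _ e1.2.2 e2.2.2 e3.2.2
        · omega
        · omega
        · rcases e2.2 with a | a <;> rcases e3.2 with b | b
          · omega
          · omega
          · omega
          · exact irr _ _ b.2.1 a.2.1 e1.2.2
        · omega
        · rcases e1.2 with a | a <;> rcases e3.2 with b | b
          · omega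
          · omega
          · omega
          · exact irr _ _ a.2.2 b.2.2 e2.2.2
        · rcases e1.2 with a | a <;> rcases e2.2 with b | b
          · omega
          · omega
          · omega
          · exact irr _ _ a.2.1 b.2.2 e3.2.2
        · omega

theorem no_triangle {r : ℕ} (hH : Host D.A D.h r) (hD : ok D) {x y z : E}
    (hx : x ∈ labs D) (hy : y ∈ labs D) (hz : z ∈ labs D) (h1 : adjR D x y) (h2 : adjR D y z)
    (h3 : adjR D x z) : False := by
  rcases le_total x.1 y.1 with a | a <;> rcases le_total y.1 z.1 with b | b <;>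
    rcases le_total x.1 z.1 with c | c
  · exact no_triangle_sorted hH hD hx hy hz h1 h2 h3 a b
  · exact no_triangle_sorted hH hD hx hy hz h1 h2 h3 a b
  · exact no_triangle_sorted hH hD hx hz hy h3 (adjR_symm h2) h1 c b
  · exact no_triangle_sorted hH hD hz hx hy (adjR_symm h3) h1 (adjR_symm h2) c a
  · exact no_triangle_sorted hH hD hy hx hz (adjR_symm h1) h3 h2 a c
  · exact no_triangle_sorted hH hD hy hz hx h2 (adjR_symm h3) (adjR_symm h1) b c
  · exact no_triangle_sorted hH hD hz hy hx (adjR_symm h2) (adjR_symm h1) (adjR_symm h3) b a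
  · exact no_triangle_sorted hH hD hz hy hx (adjR_symm h2) (adjR_symm h1) (adjR_symm h3) b a

theorem inst_len : (inst D).1.length = (labs D).length := by simp [inst]

/-- The label of a vertex. -/
def lab (i : Fin (inst D).1.length) : E := (labs D)[i.1]'(lt_of_lt_of_eq i.2 inst_len)

theorem lab_mem (i : Fin (inst D).1.length) : lab i ∈ labs D := List.getElem_mem _

theorem lab_inj : Function.Injective (lab (D := D)) := by
  intro i j h
  unfold lab at h
  exact Fin.ext ((List.Nodup.getElem_inj_iff (labs_nodup D)).1 h)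

theorem exists_lab {x : E} (hx : x ∈ labs D) : ∃ i : Fin (inst D).1.length, lab i = x := by
  obtain ⟨i, hi, rfl⟩ := List.getElem_of_mem hx
  exact ⟨⟨i, by rwa [inst_len]⟩, rfl⟩

theorem ent_inst {a b : ℕ} (ha : a < (labs D).length) (hb : b < (labs D).length) :
    ent (inst D).1 a b = decide (adjR D (labs D)[a] (labs D)[b]) := by
  simp [ent, inst, List.getD_eq_getElem?_getD, ha, hb]

theorem ent_inst_none {a b : ℕ} (h : ¬ (a < (labs D).length ∧ b < (labs D).length)) :
    ent (inst D).1 a b = false := by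
  unfold ent inst
  by_cases ha : a < (labs D).length
  · have hb : (labs D).length ≤ b := by
      by_contra hb
      exact h ⟨ha, by omega⟩
    simp [List.getD_eq_getElem?_getD, ha, hb]
  · simp [List.getD_eq_getElem?_getD, not_lt.1 ha]

theorem wf_inst (hh : 0 < D.h) : WF (inst D) := by
  refine ⟨?_, ?_, ?_, ?_⟩
  · intro r hr
    simp only [inst, List.mem_map] at hr
    obtain ⟨x, _, rfl⟩ := hr
    simp [inst]
  · intro a b
    by_cases h : a < (labs D).length ∧ b < (labs D).length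
    · rw [ent_inst h.1 h.2, ent_inst h.2 h.1]
      exact decide_eq_decide.2 ⟨adjR_symm, adjR_symm⟩
    · rw [ent_inst_none h, ent_inst_none (fun h' => h ⟨h'.2, h'.1⟩)]
  · intro a
    by_cases h : a < (labs D).length ∧ a < (labs D).length
    · rw [ent_inst h.1 h.2]
      exact decide_eq_false (fun h' => h'.1 rfl)
    · exact ent_inst_none h
  · show 0 < kk D
    unfold kk
    omega

theorem adj_iff (i j : Fin (inst D).1.length) :
    (graph (inst D).1).Adj i j ↔ adjR D (lab i) (lab j) := by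
  have hi : i.1 < (labs D).length := lt_of_lt_of_eq i.2 inst_len
  have hj : j.1 < (labs D).length := lt_of_lt_of_eq j.2 inst_len
  have h1 : ent (inst D).1 i.1 j.1 = decide (adjR D (lab i) (lab j)) := ent_inst hi hj
  have h2 : ent (inst D).1 j.1 i.1 = decide (adjR D (lab j) (lab i)) := ent_inst hj hi
  show (i ≠ j ∧ (ent (inst D).1 i.1 j.1 = true ∨ ent (inst D).1 j.1 i.1 = true)) ↔ _
  rw [h1, h2, decide_eq_true_iff, decide_eq_true_iff]
  constructor
  · rintro ⟨_, h | h⟩
    · exact h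
    · exact adjR_symm h
  · intro h
    exact ⟨fun e => h.1 (by rw [e]), Or.inl h⟩

theorem tf_inst {r : ℕ} (hH : Host D.A D.h r) (hD : ok D) : TF (inst D) := by
  classical
  intro S hS
  rw [SimpleGraph.is3Clique_iff] at hS
  obtain ⟨a, b, c, hab, hac, hbc, _⟩ := hS
  rw [adj_iff] at hab hac hbc
  exact no_triangle hH hD (lab_mem a) (lab_mem b) (lab_mem c) hab hbc hac

theorem yes_iff : Yes (inst D) ↔ ∃ I : Finset E, (∀ x ∈ I, x ∈ labs D) ∧
    (∀ x ∈ I, ∀ y ∈ I, ¬ adjR D x y) ∧ kk D ≤ I.card := by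
  classical
  constructor
  · rintro ⟨S, hS, hc⟩
    refine ⟨S.image lab, ?_, ?_, ?_⟩
    · intro x hx
      rw [Finset.mem_image] at hx
      obtain ⟨i, _, rfl⟩ := hx
      exact lab_mem i
    · intro x hx y hy hxy
      rw [Finset.mem_image] at hx hy
      obtain ⟨i, hi, rfl⟩ := hx
      obtain ⟨j, hj, rfl⟩ := hy
      have hij : i ≠ j := by
        rintro rfl
        exact hxy.1 rfl
      exact hS hi hj hij ((adj_iff i j).2 hxy)
    · rw [Finset.card_image_of_injective _ lab_inj]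
      exact hc
  · rintro ⟨I, hI, hind, hc⟩
    refine ⟨Finset.univ.filter (fun i => lab i ∈ I), ?_, ?_⟩
    · intro i hi j hj _ hij
      rw [Finset.mem_coe, Finset.mem_filter] at hi hj
      exact hind _ hi.2 _ hj.2 ((adj_iff i j).1 hij)
    · refine le_trans (show (inst D).2 ≤ I.card from hc) ?_
      have h1 : I ⊆ (Finset.univ.filter (fun i : Fin (inst D).1.length => lab i ∈ I)).image lab := by
        intro x hx
        obtain ⟨i, hi⟩ := exists_lab (hI x hx)
        rw [Finset.mem_image]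
        exact ⟨i, by rw [Finset.mem_filter]; exact ⟨Finset.mem_univ _, by rw [hi]; exact hx⟩, hi⟩
      exact (Finset.card_le_card h1).trans Finset.card_image_le

end

end Pool.Agent.H801.Tri
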