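import Mathlib

/-!
# The graph of large Hamming distances
-/

namespace Pool.Agent.H801.Tri

/-- All bit strings of length `n`. -/
def words : ℕ → List (List Bool)
  | 0 => [[]]
  | n + 1 => (words n).map (List.cons false) ++ (words n).map (List.cons true)

/-- The Hamming distance. -/
def ham (u v : List Bool) : ℕ := ((u.zip v).filter (fun p => !(p.1 == p.2))).length

@[simp] theorem ham_nil (v : List Bool) : ham [] v = 0 := by simp [ham]

theorem ham_cons (a b : Bool) (u v : List Bool) :
    ham (a :: u) (b :: v) = (if a = b then 0 else 1) + ham u v := by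
  unfold ham
  by_cases h : a = b
  · subst h; simp
  · simp [h, Nat.add_comm]

theorem ham_self : ∀ u : List Bool, ham u u = 0
  | [] => by simp
  | a :: u => by rw [ham_cons, ham_self u]; simp

theorem ham_comm : ∀ u v : List Bool, ham u v = ham v u
  | [], v => by simp [ham]
  | a :: u, [] => by simp [ham]
  | a :: u, b :: v => by
    rw [ham_cons, ham_cons, ham_comm u v]
    by_cases h : a = b
    · subst h; rfl
    · rw [if_neg h, if_neg (fun e => h e.symm)]

theorem ham_not : ∀ u v : List Bool, u.length = v.length →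
    ham (u.map not) v + ham u v = u.length
  | [], v, _ => by simp
  | a :: u, [], h => by simp at h
  | a :: u, b :: v, h => by
    have := ham_not u v (by simpa using h)
    rw [List.map_cons, ham_cons, ham_cons, List.length_cons]
    cases a <;> cases b <;> simp <;> omega

/-- Three strings cannot have large distances pairwise. -/
theorem ham_triangle : ∀ u v w : List Bool, u.length = v.length → v.length = w.length →
    ham u v + ham v w + ham u w ≤ 2 * u.length
  | [], v, w, h, _ => by
    have : v = [] := List.eq_nil_of_length_eq_zero h.symm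
    subst this
    simp
  | a :: u, [], w, h, _ => by simp at h
  | a :: u, b :: v, [], _, h => by simp at h
  | a :: u, b :: v, c :: w, h, h' => by
    have := ham_triangle u v w (by simpa using h) (by simpa using h')
    rw [ham_cons, ham_cons, ham_cons, List.length_cons]
    cases a <;> cases b <;> cases c <;> simp <;> omega

theorem ham_le_one_not {u v : List Bool} (h : u.length = v.length) (h1 : ham u v ≤ 1) :
    u.length ≤ ham v (u.map not) + 1 := by
  have := ham_not u v h
  rw [ham_comm v]
  omega

theorem mem_words : ∀ {n : ℕ} {w : List Bool}, w ∈ words n ↔ w.length = n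
  | 0, w => by simp [words]
  | n + 1, [] => by simp [words]
  | n + 1, b :: w => by
    have := @mem_words n w
    cases b <;> simp [words, this]

theorem words_length : ∀ n, (words n).length = 2 ^ n
  | 0 => rfl
  | n + 1 => by simp [words, words_length n, pow_succ]; ring

theorem words_nodup : ∀ n, (words n).Nodup
  | 0 => by simp [words]
  | n + 1 => by
    have := words_nodup n
    unfold words
    rw [List.nodup_append']
    refine ⟨this.map (fun a b h => by simpa using h), this.map (fun a b h => by simpa using h), ?_⟩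
    intro x hx hx'
    rw [List.mem_map] at hx hx'
    obtain ⟨a, _, rfl⟩ := hx
    obtain ⟨b, _, hb⟩ := hx'
    simp at hb

/-- The set of all bit strings of length `n`. -/
def W (n : ℕ) : Finset (List Bool) := (words n).toFinset

theorem mem_W {n : ℕ} {w : List Bool} : w ∈ W n ↔ w.length = n := by
  unfold W; rw [List.mem_toFinset, mem_words]

theorem W_card (n : ℕ) : (W n).card = 2 ^ n := by
  unfold W; rw [List.toFinset_card_of_nodup (words_nodup n), words_length]

theorem W_succ (n : ℕ) : W (n + 1) = (W n).image (List.cons false) ∪ (W n).image (List.cons true) := by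
  ext w
  rw [mem_W, Finset.mem_union, Finset.mem_image, Finset.mem_image]
  constructor
  · intro h
    cases w with
    | nil => simp at h
    | cons b w =>
      have hw : w ∈ W n := mem_W.2 (by simpa using h)
      cases b
      · exact Or.inl ⟨w, hw, rfl⟩
      · exact Or.inr ⟨w, hw, rfl⟩
  · rintro (⟨a, ha, rfl⟩ | ⟨a, ha, rfl⟩) <;> simp [mem_W.1 ha]

theorem sum_W_succ {M : Type*} [AddCommMonoid M] (n : ℕ) (F : List Bool → M) :
    ∑ x ∈ W (n + 1), F x = ∑ x ∈ W n, F (false :: x) + ∑ x ∈ W n, F (true :: x) := by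
  rw [W_succ, Finset.sum_union, Finset.sum_image (by simp), Finset.sum_image (by simp)]
  rw [Finset.disjoint_left]
  intro w hw hw'
  rw [Finset.mem_image] at hw hw'
  obtain ⟨a, _, rfl⟩ := hw
  obtain ⟨b, _, hb⟩ := hw'
  simp at hb

theorem card_eq_sum {n : ℕ} {A : Finset (List Bool)} (hA : A ⊆ W n) :
    A.card = ∑ x ∈ W n, if x ∈ A then 1 else 0 := by
  rw [Finset.sum_ite_mem, Finset.inter_eq_right.2 hA, Finset.sum_const, smul_eq_mul, mul_one]

/-- The slice of a set. -/
def slice (n : ℕ) (A : Finset (List Bool)) (b : Bool) : Finset (List Bool) :=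
  (W n).filter (fun w => b :: w ∈ A)

theorem card_slice {n : ℕ} {A : Finset (List Bool)} (hA : A ⊆ W (n + 1)) :
    A.card = (slice n A false).card + (slice n A true).card := by
  rw [card_eq_sum hA, sum_W_succ]
  unfold slice
  rw [Finset.card_filter, Finset.card_filter]

/-- The concentration inequality: the exponential moment of a lower bound of the distance to `A`. -/
theorem moment : ∀ (n : ℕ) (A : Finset (List Bool)) (f : List Bool → ℕ), A ⊆ W n →
    (∀ x ∈ W n, ∀ a ∈ A, f x ≤ ham x a) →
    (A.card : ℝ) * ∑ x ∈ W n, (2 : ℝ) ^ f x ≤ (9 / 2) ^ n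
  | 0, A, f, hA, hf => by
    have hW : W 0 = {[]} := by simp [W, words]
    rw [hW] at hA ⊢
    rcases Finset.subset_singleton_iff.1 hA with rfl | rfl
    · simp
    · have := hf [] (by rw [hW]; simp) [] (by simp)
      have h0 : f [] = 0 := by simpa using this
      simp [h0]
  | n + 1, A, f, hA, hf => by
    have ih := moment n
    set a0 : ℝ := ((slice n A false).card : ℝ) with ha0
    set a1 : ℝ := ((slice n A true).card : ℝ) with ha1
    set F0 : ℝ := ∑ x ∈ W n, (2 : ℝ) ^ f (false :: x) with hF0
    set F1 : ℝ := ∑ x ∈ W n, (2 : ℝ) ^ f (true :: x) with hF1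
    set c : ℝ := (9 / 2) ^ n with hc
    have hsl : ∀ b x, x ∈ W n → b :: x ∈ W (n + 1) := by
      intro b x hx
      rw [mem_W] at hx ⊢
      simp [hx]
    have hsub : ∀ b, slice n A b ⊆ W n := fun b => Finset.filter_subset _ _
    have hmem : ∀ b a, a ∈ slice n A b → b :: a ∈ A := fun b a h => (Finset.mem_filter.1 h).2
    have h1 : ∀ b, ((slice n A b).card : ℝ) * ∑ x ∈ W n, (2 : ℝ) ^ f (b :: x) ≤ c := by
      intro b
      refine ih (slice n A b) (fun x => f (b :: x)) (hsub b) (fun x hx a ha => ?_)
      have := hf (b :: x) (hsl b x hx) (b :: a) (hmem b a ha)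
      rw [ham_cons] at this
      simpa using this
    have h2 : ∀ b b', b ≠ b' →
        ((slice n A b').card : ℝ) * ∑ x ∈ W n, (2 : ℝ) ^ f (b :: x) ≤ 2 * c := by
      intro b b' hbb
      have h3 := ih (slice n A b') (fun x => f (b :: x) - 1) (hsub b') (fun x hx a ha => by
        have := hf (b :: x) (hsl b x hx) (b' :: a) (hmem b' a ha)
        rw [ham_cons, if_neg hbb] at this
        show f (b :: x) - 1 ≤ _
        omega)
      have h4 : ∑ x ∈ W n, (2 : ℝ) ^ f (b :: x) ≤ 2 * ∑ x ∈ W n, (2 : ℝ) ^ (f (b :: x) - 1) := by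
        rw [Finset.mul_sum]
        refine Finset.sum_le_sum fun x _ => ?_
        rw [← pow_succ']
        exact pow_le_pow_right₀ (by norm_num) (by omega)
      calc ((slice n A b').card : ℝ) * ∑ x ∈ W n, (2 : ℝ) ^ f (b :: x)
          ≤ ((slice n A b').card : ℝ) * (2 * ∑ x ∈ W n, (2 : ℝ) ^ (f (b :: x) - 1)) :=
            mul_le_mul_of_nonneg_left h4 (by positivity)
        _ = 2 * (((slice n A b').card : ℝ) * ∑ x ∈ W n, (2 : ℝ) ^ (f (b :: x) - 1)) := by ring
        _ ≤ 2 * c := by linarith
    have e1 : a0 * F0 ≤ c := h1 false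
    have e2 : a1 * F1 ≤ c := h1 true
    have e3 : a0 * F1 ≤ 2 * c := h2 true false (by simp)
    have e4 : a1 * F0 ≤ 2 * c := h2 false true (by simp)
    have hcpos : 0 < c := by positivity
    have na0 : 0 ≤ a0 := by positivity
    have na1 : 0 ≤ a1 := by positivity
    have nF0 : 0 ≤ F0 := Finset.sum_nonneg fun _ _ => by positivity
    have nF1 : 0 ≤ F1 := Finset.sum_nonneg fun _ _ => by positivity
    have e5 : (a0 * F1) * (a1 * F0) ≤ c * c := by
      calc (a0 * F1) * (a1 * F0) = (a0 * F0) * (a1 * F1) := by ring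
        _ ≤ c * c := mul_le_mul e1 e2 (by positivity) hcpos.le
    have e6 : a0 * F1 + a1 * F0 ≤ 5 / 2 * c := by
      have h7 : 0 ≤ (2 * c - a0 * F1) * (2 * c - a1 * F0) :=
        mul_nonneg (by linarith) (by linarith)
      have h8 : c * (a0 * F1 + a1 * F0) ≤ c * (5 / 2 * c) := by nlinarith
      exact le_of_mul_le_mul_left h8 hcpos
    rw [card_slice hA, sum_W_succ, pow_succ]
    push_cast
    show (a0 + a1) * (F0 + F1) ≤ c * (9 / 2)
    nlinarith

/-- Two sets of strings of length `3 g` without pairs at distance more than `2 g`. -/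
theorem cross_bound {g : ℕ} {A B : Finset (List Bool)} (hA : A ⊆ W (3 * g)) (hB : B ⊆ W (3 * g))
    (h : ∀ a ∈ A, ∀ b ∈ B, ham a b ≤ 2 * g) :
    A.card * B.card * 16 ^ g ≤ 729 ^ g := by
  have h1 := moment (3 * g) A (fun x => if x.map not ∈ B then g else 0) hA (fun x hx a ha => by
    show (if x.map not ∈ B then g else 0) ≤ _
    split_ifs with hxB
    · have h2 := ham_not x a (by rw [mem_W.1 hx, mem_W.1 (hA ha)])
      have h3 := h a ha _ hxB
      rw [ham_comm] at h3
      rw [mem_W.1 hx] at h2
      omega
    · omega)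
  have h4 : (B.card : ℝ) * 2 ^ g ≤
      ∑ x ∈ W (3 * g), (2 : ℝ) ^ (if x.map not ∈ B then g else 0) := by
    have hinv : ∀ u : List Bool, (u.map not).map not = u := by
      intro u
      rw [List.map_map]
      convert List.map_id u using 2
      funext b
      simp
    have h5 : ∑ x ∈ B.image (List.map not), (2 : ℝ) ^ (if x.map not ∈ B then g else 0) =
        (B.card : ℝ) * 2 ^ g := by
      rw [Finset.sum_image (fun u _ v _ huv => by
        have := congrArg (List.map not) huv
        simpa only [hinv] using this)]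
      rw [Finset.sum_congr rfl (g := fun _ => (2 : ℝ) ^ g) (fun u hu => by
        rw [hinv, if_pos hu])]
      rw [Finset.sum_const, nsmul_eq_mul]
    rw [← h5]
    refine Finset.sum_le_sum_of_subset_of_nonneg (fun x hx => ?_) (fun _ _ _ => by positivity)
    rw [Finset.mem_image] at hx
    obtain ⟨u, hu, rfl⟩ := hx
    rw [mem_W, List.length_map]
    exact mem_W.1 (hB hu)
  have h6 : (A.card : ℝ) * ((B.card : ℝ) * 2 ^ g) ≤ (9 / 2) ^ (3 * g) :=
    (mul_le_mul_of_nonneg_left h4 (by positivity)).trans h1
  have h7 : ((9 / 2 : ℝ)) ^ (3 * g) * 8 ^ g = 729 ^ g := by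
    rw [pow_mul, ← mul_pow]; norm_num
  have h8 : (A.card : ℝ) * B.card * 16 ^ g ≤ 729 ^ g := by
    have e : (16 : ℝ) ^ g = 2 ^ g * 8 ^ g := by rw [← mul_pow]; norm_num
    rw [e, ← h7]
    have := mul_le_mul_of_nonneg_right h6 (show (0 : ℝ) ≤ 8 ^ g by positivity)
    linarith
  exact_mod_cast h8

theorem card_ham_eq : ∀ (n : ℕ) (u : List Bool), u.length = n → ∀ k,
    ((W n).filter (fun w => ham u w = k)).card = n.choose k
  | 0, u, hu, k => by
    have : u = [] := List.eq_nil_of_length_eq_zero hu
    subst this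
    have hW : W 0 = {[]} := by simp [W, words]
    rw [hW]
    cases k <;> simp [Finset.filter_singleton]
  | n + 1, [], hu, k => by simp at hu
  | n + 1, a :: u, hu, k => by
    have ih := card_ham_eq n u (by simpa using hu)
    rw [Finset.card_filter, sum_W_succ]
    have h1 : ∀ b, ∑ x ∈ W n, (if ham (a :: u) (b :: x) = k then 1 else 0) =
        ((W n).filter (fun w => (if a = b then 0 else 1) + ham u w = k)).card := by
      intro b
      rw [Finset.card_filter]
      refine Finset.sum_congr rfl fun x _ => ?_
      rw [ham_cons]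
    rw [h1, h1]
    have h2 : ∀ k, ((W n).filter (fun w => 0 + ham u w = k)).card = n.choose k := by
      intro k
      rw [← ih k]
      congr 1
      ext w
      simp
    have h3 : ((W n).filter (fun w => 1 + ham u w = k)).card =
        if k = 0 then 0 else n.choose (k - 1) := by
      split_ifs with hk
      · subst hk
        rw [Finset.card_eq_zero, Finset.filter_eq_empty_iff]
        intro w _
        omega
      · rw [← ih (k - 1)]
        congr 1
        ext w
        simp only [Finset.mem_filter, and_congr_right_iff]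
        intro _
        omega
    have h4 : (n + 1).choose k = n.choose k + if k = 0 then 0 else n.choose (k - 1) := by
      cases k with
      | zero => simp
      | succ k => rw [Nat.choose_succ_succ]; simp; ring
    rw [h4]
    cases a
    · simp only [if_true, Bool.false_eq_true, if_false]
      rw [h2, h3]
    · simp only [if_true, Bool.true_eq_false, if_false]
      rw [h2, h3, Nat.add_comm]

theorem choose_step (k : ℕ) : 6 * (3 * k + 5).choose (2 * k + 5) ≤ (3 * k + 8).choose (2 * k + 7) := by
  set c := (3 * k + 5).choose (2 * k + 5) with hc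
  have h1 : (3 * k + 5).choose (2 * k + 4) * (k + 1) = c * (2 * k + 5) := by
    have := Nat.choose_succ_right_eq (3 * k + 5) (2 * k + 4)
    rw [show 2 * k + 4 + 1 = 2 * k + 5 by ring,
      show 3 * k + 5 - (2 * k + 4) = k + 1 by omega] at this
    exact this.symm
  have h2 : (3 * k + 5).choose (2 * k + 6) * (2 * k + 6) = c * k := by
    have := Nat.choose_succ_right_eq (3 * k + 5) (2 * k + 5)
    rw [show 2 * k + 5 + 1 = 2 * k + 6 by ring,
      show 3 * k + 5 - (2 * k + 5) = k by omega] at this
    exact this
  have h3 : (3 * k + 8).choose (2 * k + 7) = (3 * k + 5).choose (2 * k + 7) +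
      3 * (3 * k + 5).choose (2 * k + 6) + 3 * c + (3 * k + 5).choose (2 * k + 4) := by
    rw [show 3 * k + 8 = (3 * k + 5) + 1 + 1 + 1 by ring, show 2 * k + 7 = (2 * k + 4) + 1 + 1 + 1 by ring]
    rw [Nat.choose_succ_succ, Nat.choose_succ_succ ((3 * k + 5) + 1) (2 * k + 4 + 1),
      Nat.choose_succ_succ ((3 * k + 5) + 1) (2 * k + 4 + 1 + 1),
      Nat.choose_succ_succ (3 * k + 5) (2 * k + 4), Nat.choose_succ_succ (3 * k + 5) (2 * k + 4 + 1),
      Nat.choose_succ_succ (3 * k + 5) (2 * k + 4 + 1 + 1)]
    simp only [Nat.succ_eq_add_one, show 2 * k + 4 + 1 = 2 * k + 5 by ring,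
      show 2 * k + 4 + 1 + 1 = 2 * k + 6 by ring, show 2 * k + 4 + 1 + 1 + 1 = 2 * k + 7 by ring,
      show 2 * k + 5 + 1 = 2 * k + 6 by ring, show 2 * k + 6 + 1 = 2 * k + 7 by ring, ← hc]
    ring
  rw [h3]
  have hp : 0 < (k + 1) * (2 * k + 6) := by positivity
  have h4 : (k + 1) * (2 * k + 6) * (3 * c) ≤ (k + 1) * (2 * k + 6) *
      (3 * (3 * k + 5).choose (2 * k + 6) + (3 * k + 5).choose (2 * k + 4)) := by
    have e1 : (k + 1) * (2 * k + 6) * (3 * (3 * k + 5).choose (2 * k + 6) +
        (3 * k + 5).choose (2 * k + 4)) = 3 * (k + 1) * ((3 * k + 5).choose (2 * k + 6) * (2 * k + 6)) +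
        (2 * k + 6) * ((3 * k + 5).choose (2 * k + 4) * (k + 1)) := by ring
    rw [e1, h1, h2]
    nlinarith [Nat.zero_le (c * k * k), Nat.zero_le (c * k), Nat.zero_le c]
  have h5 := Nat.le_of_mul_le_mul_left h4 hp
  omega

theorem choose_ge : ∀ k : ℕ, 6 ^ k ≤ (3 * k + 5).choose (2 * k + 5)
  | 0 => by simp
  | k + 1 => by
    have := choose_ge k
    have h := choose_step k
    rw [show 3 * (k + 1) + 5 = 3 * k + 8 by ring, show 2 * (k + 1) + 5 = 2 * k + 7 by ring, pow_succ]
    omega

end Pool.Agent.H801.Tri
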