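import Pool.Agent.H801.Tri.Main

/-!
# From kernels with few vertices to small compressions
-/

namespace Pool.Agent.H801.Tri

open Pool.Agent.NPC
open Pool.Agent.H801.Fvs (graph)

theorem LinearKernel.small (h : LinearKernel) : SmallKernel := by
  obtain ⟨K, f, c, hK, _, h⟩ := h
  refine ⟨K, c ^ 100, hK, fun I hI hT => ?_⟩
  obtain ⟨J, hJ, _, hKJ, hiff, _, hlen⟩ := h I hI hT
  refine ⟨J, hJ, hKJ, hiff, ?_⟩
  calc J.1.length ^ 100 ≤ (c * (I.2 + 1)) ^ 100 :=
        Nat.pow_le_pow_left (hlen.trans (by rw [Nat.mul_succ])) 100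
    _ = c ^ 100 * (I.2 + 1) ^ 100 := mul_pow ..
    _ ≤ c ^ 100 * (I.2 + 1) ^ 101 :=
        Nat.mul_le_mul_left _ (Nat.pow_le_pow_right (by omega) (by norm_num))

/-- The solution size is cut off at the order of the graph plus one. -/
def cut (J : Inst) : Inst := (J.1, min J.2 (J.1.length + 1))

/-- The cut of a coded instance. -/
def cutB (z : List Bool) : List Bool :=
  match (unbits Inst z).map (fun J => cut J) with
  | none => []
  | some J => bits J

theorem cutB_bits (J : Inst) : cutB (bits J) = bits (cut J) := by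
  unfold cutB
  rw [unbits_bits]
  rfl

theorem polyTime_cutB : PolyTime cutB := by
  have h1 : NPC.Poly (fun p : List Bool × Inst => p.2) := NPC.Poly.snd NPC.Poly.id
  have h2 : NPC.Poly (fun z : List Bool => (unbits Inst z).map (fun J => cut J)) :=
    NPC.Poly.optMap (f := fun (_ : List Bool) (J : Inst) => cut J) poly_unbits
      (NPC.Poly.pair h1.fst (NPC.Poly.min h1.snd (NPC.Poly.succ (NPC.Poly.length h1.fst))))
  have h3 := polyTime_opt h2
  convert h3 using 1
  funext z
  unfold cutB
  cases (unbits Inst z).map (fun J => cut J) <;> rfl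

theorem yes_cut (J : Inst) : Yes (cut J) ↔ Yes J := by
  have hc : ∀ S : Finset (Fin J.1.length), S.card < J.1.length + 1 := by
    intro S
    have := S.card_le_univ
    rw [Fintype.card_fin] at this
    omega
  constructor
  · rintro ⟨S, hS, hk⟩
    have h1 : min J.2 (J.1.length + 1) ≤ Finset.card (α := Fin J.1.length) S := hk
    have h2 := hc S
    refine ⟨S, hS, ?_⟩
    show J.2 ≤ Finset.card (α := Fin J.1.length) S
    omega
  · rintro ⟨S, hS, hk⟩
    exact ⟨S, hS, (min_le_left _ _).trans hk⟩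

theorem length_cut {J : Inst} (hJ : WF J) : (bits (cut J)).length ≤ 20 * (J.1.length + 1) ^ 2 := by
  rw [bits_length]
  unfold cut
  rw [sz_pair]
  have h1 := sz_le_length_mul J.1 (4 * J.1.length + 1) (fun row hrow => by
    refine (sz_listBool_le _).trans ?_
    rw [hJ.1 row hrow])
  have h2 := sz_nat_le (min J.2 (J.1.length + 1))
  have h3 : (min J.2 (J.1.length + 1)).size ≤ J.1.length + 1 := by
    refine (Nat.size_le_size (min_le_right _ _)).trans ?_
    exact Nat.size_le.2 Nat.lt_two_pow_self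
  nlinarith [Nat.zero_le J.1.length]

theorem SmallKernel.compression (h : SmallKernel) : SmallCompression := by
  obtain ⟨K, c, hK, h⟩ := h
  refine ⟨fun z => cutB (K z), {z | ∃ J : Inst, z = bits J ∧ Yes J},
    20 ^ 50 * (2 ^ 100 * (c + 1)), H642R2.TMSim.polyTime_comp polyTime_cutB hK, fun I hI hT => ?_⟩
  obtain ⟨J, hJ, hKJ, hiff, hlen⟩ := h I hI hT
  have he : cutB (K (bits I)) = bits (cut J) := by rw [hKJ, cutB_bits]
  simp only [he]
  constructor
  · rw [← hiff, ← yes_cut J]
    constructor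
    · rintro ⟨J', hJ', hy⟩
      rw [bits_injective hJ']
      exact hy
    · intro hy
      exact ⟨cut J, rfl, hy⟩
  · have h1 : (J.1.length + 1) ^ 100 ≤ 2 ^ 100 * ((c + 1) * (I.2 + 1) ^ 101) := by
      have h2 : J.1.length + 1 ≤ 2 * max J.1.length 1 := by omega
      refine (Nat.pow_le_pow_left h2 100).trans ?_
      rw [mul_pow]
      refine Nat.mul_le_mul_left _ ?_
      have h3 : (max J.1.length 1) ^ 100 ≤ J.1.length ^ 100 + 1 := by
        rcases le_total J.1.length 1 with h | h
        · rw [max_eq_right h, one_pow]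
          omega
        · rw [max_eq_left h]
          omega
      refine h3.trans ?_
      have h4 : 1 ≤ (I.2 + 1) ^ 101 := Nat.one_le_pow _ _ (by omega)
      rw [Nat.add_mul, one_mul]
      omega
    calc (bits (cut J)).length ^ 50 ≤ (20 * (J.1.length + 1) ^ 2) ^ 50 :=
          Nat.pow_le_pow_left (length_cut hJ) 50
      _ = 20 ^ 50 * (J.1.length + 1) ^ 100 := by rw [mul_pow, ← pow_mul]
      _ ≤ 20 ^ 50 * (2 ^ 100 * ((c + 1) * (I.2 + 1) ^ 101)) := Nat.mul_le_mul_left _ h1
      _ = 20 ^ 50 * (2 ^ 100 * (c + 1)) * (I.2 + 1) ^ 101 := by ring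

end Pool.Agent.H801.Tri
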