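import Pool.Agent.H801.Tri.Comp

/-!
# The choice of the parameters
-/

namespace Pool.Agent.H801.Tri

theorem pow_step {g : ℕ} (hg : 100 ≤ g) : 144 * 729 ^ g ≤ 768 ^ g := by
  obtain ⟨k, rfl⟩ : ∃ k, g = 100 + k := ⟨g - 100, by omega⟩
  rw [pow_add, pow_add, ← mul_assoc]
  refine Nat.mul_le_mul ?_ (Nat.pow_le_pow_left (by norm_num) k)
  norm_num

theorem base_step : 13 * 729 ^ 50 ≤ 768 ^ 50 := by norm_num

/-- The parameters. -/
theorem params (c : ℕ) : ∃ C : ℕ, ∀ N : ℕ, 0 < N → ∃ g h r t : ℕ, 3 ≤ g ∧ h = 2 ^ (3 * g - 1) ∧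
    144 * r * 729 ^ g ≤ 768 ^ g ∧ 1 ≤ r ∧ r ≤ h ∧ 1 ≤ t ∧ t * wN N ≤ h ∧ h ≤ C * N ^ 600 ∧
    c * (31 * h) ^ 101 < (r * t * t) ^ 50 := by
  obtain ⟨a, ha⟩ : ∃ a, a = 31 ^ 101 := ⟨_, rfl⟩
  obtain ⟨b, hb⟩ : ∃ b, b = 12 ^ 100 := ⟨_, rfl⟩
  obtain ⟨d, hd⟩ : ∃ d, d = 288 ^ 50 := ⟨_, rfl⟩
  have ha1 : 1 ≤ a := by rw [ha]; exact Nat.one_le_pow _ _ (by norm_num)
  have hb1 : 12 ≤ b := by rw [hb]; exact Nat.le_self_pow (by norm_num) 12
  have hd1 : 2 ^ 50 ≤ d := by rw [hd]; exact Nat.pow_le_pow_left (by norm_num) 50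
  refine ⟨64 * ((c + 1) * a * b * d) ^ 6, fun N hN => ?_⟩
  set M := (c + 1) * a * b * d * N ^ 100 with hM
  have hN100 : N ≤ N ^ 100 := Nat.le_self_pow (by norm_num) N
  have hN1 : 1 ≤ N ^ 100 := Nat.one_le_pow _ _ hN
  have hc1 : 1 ≤ c + 1 := by omega
  have hM50 : 2 ^ 50 ≤ M := by
    calc 2 ^ 50 ≤ d := hd1
      _ = 1 * 1 * 1 * d * 1 := by ring
      _ ≤ (c + 1) * a * b * d * N ^ 100 := by gcongr; omega
  have hM6 : 6 * N ≤ M := by
    calc 6 * N ≤ 1 * 1 * 12 * 1 * N ^ 100 := by omega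
      _ ≤ (c + 1) * a * b * d * N ^ 100 := by gcongr; exact le_trans (by norm_num) hd1
  set m := M.size with hm
  have hm1 : M < 2 ^ m := Nat.lt_size_self M
  have hm50 : 50 < m := Nat.lt_size.2 hM50
  have hm2 : 2 ^ m ≤ 2 * M := by
    have h1 : 2 ^ (m - 1) ≤ M := Nat.lt_size.1 (by omega)
    have h2 : 2 ^ m = 2 * 2 ^ (m - 1) := by
      rw [← pow_succ', Nat.sub_add_cancel (by omega)]
    omega
  set g := 2 * m with hg
  have hg3 : 3 ≤ g := by omega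
  have hpos : 0 < 144 * 729 ^ g := by positivity
  obtain ⟨r, hr⟩ : ∃ r, r = 768 ^ g / (144 * 729 ^ g) := ⟨_, rfl⟩
  have hr1 : 1 ≤ r := by
    rw [hr, Nat.le_div_iff_mul_le hpos, one_mul]
    exact pow_step (by omega)
  have hr2 : r * (144 * 729 ^ g) ≤ 768 ^ g := by rw [hr]; exact Nat.div_mul_le_self _ _
  have hr3 : 768 ^ g ≤ 288 * r * 729 ^ g := by
    have h1 : 768 ^ g < (r + 1) * (144 * 729 ^ g) := by
      have := Nat.lt_succ_self r
      rw [hr]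
      rw [mul_comm]
      exact Nat.lt_mul_div_succ _ hpos
    calc 768 ^ g ≤ (r + 1) * (144 * 729 ^ g) := h1.le
      _ ≤ (r + r) * (144 * 729 ^ g) := Nat.mul_le_mul_right _ (by omega)
      _ = 288 * r * 729 ^ g := by ring
  have hr4 : 13 ^ g ≤ d * r ^ 50 := by
    have h1 : 13 ^ g * 729 ^ (g * 50) ≤ (d * r ^ 50) * 729 ^ (g * 50) := by
      calc 13 ^ g * 729 ^ (g * 50) = (13 * 729 ^ 50) ^ g := by
            rw [mul_pow, ← pow_mul, mul_comm 50 g]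
        _ ≤ (768 ^ 50) ^ g := Nat.pow_le_pow_left base_step g
        _ = (768 ^ g) ^ 50 := by rw [← pow_mul, ← pow_mul, mul_comm]
        _ ≤ (288 * r * 729 ^ g) ^ 50 := Nat.pow_le_pow_left hr3 50
        _ = (d * r ^ 50) * 729 ^ (g * 50) := by rw [mul_pow, mul_pow, ← hd, ← pow_mul]
    exact Nat.le_of_mul_le_mul_right h1 (by positivity)
  obtain ⟨h, hh⟩ : ∃ h, h = 2 ^ (3 * g - 1) := ⟨_, rfl⟩
  have hh8 : h ≤ 8 ^ g := by
    rw [hh, show (8 : ℕ) = 2 ^ 3 by norm_num, ← pow_mul]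
    exact Nat.pow_le_pow_right (by norm_num) (by omega)
  have hhm : 2 ^ m ≤ h := by
    rw [hh]
    exact Nat.pow_le_pow_right (by norm_num) (by omega)
  have hr5 : r ≤ h := by
    have h1 : r * 729 ^ g ≤ 2 ^ g * 729 ^ g := by
      calc r * 729 ^ g ≤ r * (144 * 729 ^ g) := by gcongr; omega
        _ ≤ 768 ^ g := hr2
        _ ≤ (2 * 729) ^ g := Nat.pow_le_pow_left (by norm_num) g
        _ = 2 ^ g * 729 ^ g := mul_pow ..
    refine (Nat.le_of_mul_le_mul_right h1 (by positivity)).trans ?_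
    rw [hh]
    exact Nat.pow_le_pow_right (by norm_num) (by omega)
  have hw : wN N = 6 * N := by unfold wN; omega
  have hwpos : 0 < wN N := by rw [hw]; omega
  obtain ⟨t, ht⟩ : ∃ t, t = h / wN N := ⟨_, rfl⟩
  have ht1 : 1 ≤ t := by
    rw [ht, Nat.le_div_iff_mul_le hwpos, one_mul, hw]
    omega
  have ht2 : t * wN N ≤ h := by rw [ht]; exact Nat.div_mul_le_self _ _
  have ht3 : h ≤ 12 * N * t := by
    have h1 : h < (t + 1) * wN N := by
      rw [ht, mul_comm]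
      exact Nat.lt_mul_div_succ _ hwpos
    calc h ≤ (t + 1) * wN N := h1.le
      _ ≤ (t + t) * wN N := Nat.mul_le_mul_right _ (by omega)
      _ = 12 * N * t := by rw [hw]; ring
  refine ⟨g, h, r, t, hg3, hh, by rw [mul_comm 144 r, mul_assoc]; exact hr2, hr1, hr5, ht1, ht2,
    ?_, ?_⟩
  · calc h ≤ 2 ^ (6 * m) := by
          rw [hh]
          exact Nat.pow_le_pow_right (by norm_num) (by omega)
      _ = (2 ^ m) ^ 6 := by rw [← pow_mul, mul_comm]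
      _ ≤ (2 * M) ^ 6 := Nat.pow_le_pow_left hm2 6
      _ = 64 * ((c + 1) * a * b * d) ^ 6 * N ^ 600 := by rw [hM]; ring
  · have h1 : d * (c * (31 * h) ^ 101) < d * (r * t * t) ^ 50 := by
      have e1 : h ^ 100 ≤ (12 * N * t) ^ 100 := Nat.pow_le_pow_left ht3 100
      have e2 : 2 ^ m * 8 ^ g ≤ 13 ^ g := by
        rw [hg, pow_mul, pow_mul, ← mul_pow]
        exact Nat.pow_le_pow_left (by norm_num) m
      have e3 : 0 < t ^ 100 := by positivity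
      calc d * (c * (31 * h) ^ 101) = d * (c * (a * (h * h ^ 100))) := by
            rw [mul_pow, ← ha]; ring
        _ ≤ d * ((c + 1) * (a * (h * (12 * N * t) ^ 100))) := by gcongr; omega
        _ = M * h * t ^ 100 := by rw [mul_pow, mul_pow, ← hb, hM]; ring
        _ ≤ M * 8 ^ g * t ^ 100 := by gcongr
        _ < 2 ^ m * 8 ^ g * t ^ 100 := by gcongr
        _ ≤ 13 ^ g * t ^ 100 := by gcongr
        _ ≤ (d * r ^ 50) * t ^ 100 := by gcongr
        _ = d * (r * t * t) ^ 50 := by rw [mul_pow, mul_pow]; ring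
    exact Nat.lt_of_mul_lt_mul_left h1

end Pool.Agent.H801.Tri
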