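import Pool.Agent.H801.Tri.Time
import Pool.Agent.H801.Tri.Params
import Pool.Agent.H801.Fvs.Main

/-!
# A small compression of INDEPENDENT SET ON TRIANGLE-FREE GRAPHS puts `coNP` into `NP/poly`
-/

namespace Pool.Agent.H801.Tri

open Pool.Agent.NPC
open Pool.Agent.H801.Fvs (F3 Cl good ent InNPpoly exists_finset cover poly_app' good_of_bounded
  poly_of_raw)

/-- the type of advice: the host graph, the parameters in unary, and some strings -/
abbrev Adv : Type :=
  (List (List Bool) × List Unit × List Unit × List Unit × List Unit) × List (List Bool)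

/-- the input of the composition -/
def zz (A : Adv) (Φ : List F3) : PI := (A.1.1, A.1.2.1, A.1.2.2.1, A.1.2.2.2.1, A.1.2.2.2.2, Φ)

/-- the number of formulas -/
def TT (A : Adv) : ℕ := A.1.2.2.1.length * A.1.2.2.2.1.length * A.1.2.2.2.1.length

/-- the size of the advice -/
def Q (H N : ℕ) : ℕ :=
  ((2 * H) * (8 * H + 2) + 1) + (2 * H + 1) + (2 * H + 1) + (2 * H + 1) + (2 * N + 1) +
    ((N + 1) * (4 * (H * H * H) + 2) + 1) + 5

theorem sz_mat_le {g h : ℕ} (hh : h + h = 2 ^ (3 * g)) :
    sz (mat g) ≤ (2 * h) * (8 * h + 2) + 1 := by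
  have hl : (mat g).length = 2 * h := by
    unfold mat
    rw [List.length_map, words_length, ← hh]
    omega
  have h1 := sz_le_length_mul (mat g) (8 * h + 1) (fun row hrow => by
    unfold mat at hrow
    rw [List.mem_map] at hrow
    obtain ⟨u, _, rfl⟩ := hrow
    refine (sz_listBool_le _).trans ?_
    rw [List.length_map, words_length, ← hh]
    omega)
  rw [hl] at h1
  exact h1

theorem sz_unit_le {n m : ℕ} (h : n ≤ m) : sz (List.replicate n ()) ≤ 2 * m + 1 := by
  have := sz_le_length_mul (List.replicate n ()) 1 (fun a _ => by simp)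
  rw [List.length_replicate] at this
  omega

theorem exists_advice {K : List Bool → List Bool} {B : Set (List Bool)} {c : ℕ}
    (h : ∀ I : Inst, WF I → TF I → (K (bits I) ∈ B ↔ Yes I) ∧
      (K (bits I)).length ^ 50 ≤ c * (I.2 + 1) ^ 101) :
    ∃ C : ℕ, ∀ N : ℕ, 0 < N → ∃ A : Adv, sz A ≤ Q (C * N ^ 600) N ∧
      A.1.2.2.2.2.length = N ∧ TT A ≤ (C * N ^ 600) * (C * N ^ 600) * (C * N ^ 600) ∧
      (∀ Φ : List F3, Φ.length ≤ TT A → WF (inst (dt (zz A Φ))) ∧ TF (inst (dt (zz A Φ))) ∧
        (Yes (inst (dt (zz A Φ))) ↔ ∃ φ ∈ Φ, good N φ = true ∧ SAT3 φ)) ∧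
      (∀ z ∈ A.2, z ∉ B) ∧
      ∀ φ : F3, (bits φ).length ≤ N → ¬ (good N φ = true ∧ SAT3 φ) →
        ∃ Φ : List F3, Φ.length = TT A ∧ (∀ ψ ∈ Φ, (bits ψ).length ≤ N) ∧ φ ∈ Φ ∧
          K (bits (inst (dt (zz A Φ)))) ∈ A.2 := by
  classical
  obtain ⟨C, hC⟩ := params c
  refine ⟨C, fun N hN => ?_⟩
  obtain ⟨g, hh, r, t, hg, hheq, hr1, hr2, hr3, ht1, ht2, hbd, hT⟩ := hC N hN
  have hH : Host (mat g) hh r := by rw [hheq]; exact host hg hr1
  have hhpos : 0 < hh := by rw [hheq]; positivity
  have h2h : hh + hh = 2 ^ (3 * g) := by rw [hheq]; exact half_eq (by omega)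
  have hth : t ≤ hh := le_trans (Nat.le_mul_of_pos_right t (by unfold wN; omega)) ht2
  have htp : 0 < r * t * t := Nat.mul_pos (Nat.mul_pos hr2 ht1) ht1
  -- the advice except for the strings
  let A0 : List (List Bool) × List Unit × List Unit × List Unit × List Unit :=
    (mat g, List.replicate hh (), List.replicate r (), List.replicate t (), List.replicate N ())
  let D : (Fin (r * t * t) → F3) → List Bool := fun a => K (bits (cmb (mat g) hh r t N (List.ofFn a)))
  have hcmb : ∀ (zs : List (List Bool)) (Φ : List F3),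
      inst (dt (zz (A0, zs) Φ)) = cmb (mat g) hh r t N Φ := by
    intro zs Φ
    simp only [A0, zz, dt, cmb, List.length_replicate]
  have hTT : ∀ zs : List (List Bool), TT (A0, zs) = r * t * t := by
    intro zs
    simp only [A0, TT, List.length_replicate]
  have hlen : ∀ a : Fin (r * t * t) → F3, (D a).length < r * t * t := by
    intro a
    have h1 := (h _ (wf_cmb (A := mat g) (r := r) (t := t) (N := N) (Φ := List.ofFn a) hhpos)
      (tf_cmb hH ht2)).2
    have h2 : (cmb (mat g) hh r t N (List.ofFn a)).2 + 1 ≤ 31 * hh := by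
      have := k_le (A := mat g) (r := r) (Φ := List.ofFn a) ht1 hN ht2
      omega
    have h3 : (D a).length ^ 50 < (r * t * t) ^ 50 := by
      refine lt_of_le_of_lt (h1.trans (Nat.mul_le_mul_left _ (Nat.pow_le_pow_left h2 101))) hT
    exact lt_of_pow_lt_pow_left₀ 50 (Nat.zero_le _) h3
  obtain ⟨X, hXc, hX⟩ := exists_finset (bits : F3 → List Bool) bits_injective
    (fun φ => ¬ (good N φ = true ∧ SAT3 φ)) N
  obtain ⟨Z, hZc, hZ⟩ := exists_finset (fun z : List Bool => z) (fun _ _ h => h) (fun _ => True)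
    (r * t * t - 1)
  rw [Nat.sub_add_cancel htp] at hZc
  obtain ⟨zs, h1, h2, h3⟩ := cover htp D Z hZc.le X (fun a _ => (hZ _).2 ⟨by
    have := hlen a; omega, trivial⟩) (N + 1) X (Finset.Subset.refl _) hXc
  have hrth : r * t * t ≤ hh * hh * hh := by gcongr
  refine ⟨(A0, zs), ?_, ?_, ?_, fun Φ hΦ => ?_, fun z hz => ?_, fun φ hφ hno => ?_⟩
  · -- the size
    have s1 := sz_mat_le h2h
    have s2 := sz_unit_le (le_refl hh)
    have s3 := sz_unit_le hr3
    have s4 := sz_unit_le hth
    have s5 := sz_unit_le (le_refl N)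
    have s6 : sz zs ≤ (N + 1) * (4 * (hh * hh * hh) + 2) + 1 := by
      refine (sz_le_length_mul _ (4 * (hh * hh * hh) + 1) (fun z hz => ?_)).trans ?_
      · refine (sz_listBool_le z).trans ?_
        obtain ⟨a, ha, rfl⟩ := h2 z hz
        have := hlen a
        omega
      · exact Nat.add_le_add_right (Nat.mul_le_mul_right (4 * (hh * hh * hh) + 2) h1) 1
    have s7 : sz (A0, zs) ≤ Q hh N := by
      simp only [A0, sz_pair]
      unfold Q
      omega
    refine s7.trans ?_
    unfold Q
    gcongr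
  · simp only [A0, List.length_replicate]
  · rw [hTT]
    exact hrth.trans (by gcongr)
  · rw [hTT] at hΦ
    rw [hcmb]
    exact ⟨wf_cmb hhpos, tf_cmb hH ht2, cmb_iff hH hhpos hr2 hN ht2 hΦ⟩
  · obtain ⟨a, ha, rfl⟩ := h2 z hz
    intro hB
    have hy := ((h _ (wf_cmb hhpos) (tf_cmb hH ht2)).1).1 hB
    rw [cmb_iff hH hhpos hr2 hN ht2 (by rw [List.length_ofFn])] at hy
    obtain ⟨ψ, hψ, hg⟩ := hy
    rw [List.mem_ofFn] at hψ
    obtain ⟨i, rfl⟩ := hψ
    exact ((hX _).1 (ha i)).2 hg
  · obtain ⟨a, ha, ⟨i, hi⟩, hDa⟩ := h3 φ ((hX φ).2 ⟨hφ, hno⟩)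
    refine ⟨List.ofFn a, ?_, fun ψ hψ => ?_, ?_, ?_⟩
    · rw [hTT, List.length_ofFn]
    · rw [List.mem_ofFn] at hψ
      obtain ⟨i, rfl⟩ := hψ
      exact ((hX _).1 (ha i)).1
    · rw [List.mem_ofFn]
      exact ⟨i, hi⟩
    · rw [hcmb]
      exact hDa

/-- the verifier, after decoding -/
def ver (K : List Bool → List Bool) (f : List Bool → F3) (x : List Bool) (A : Adv)
    (Φ : List F3) : Bool :=
  decide (f x ∈ Φ) && (decide (Φ.length ≤ TT A) && decide (K (bits (inst (dt (zz A Φ)))) ∈ A.2))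

/-- the verifier -/
def gv (K : List Bool → List Bool) (f : List Bool → F3) (y : List Bool) : Bool :=
  match unbits Adv (unpair (unpair y).1).2 with
  | none => false
  | some A => match unbits (List F3) (unpair y).2 with
    | none => false
    | some Φ => ver K f (unpair (unpair y).1).1 A Φ

theorem poly_zz {β : Type} [TEnc β] {A : β → Adv} {Φ : β → List F3} (hA : NPC.Poly A)
    (hΦ : NPC.Poly Φ) : NPC.Poly (fun b => zz (A b) (Φ b)) :=
  NPC.Poly.pair hA.fst.fst (NPC.Poly.pair hA.fst.snd.fst (NPC.Poly.pair hA.fst.snd.snd.fst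
    (NPC.Poly.pair hA.fst.snd.snd.snd.fst (NPC.Poly.pair hA.fst.snd.snd.snd.snd hΦ))))

theorem poly_TT {β : Type} [TEnc β] {A : β → Adv} (hA : NPC.Poly A) :
    NPC.Poly (fun b => TT (A b)) :=
  NPC.Poly.mul (NPC.Poly.mul (NPC.Poly.length hA.fst.snd.snd.fst)
    (NPC.Poly.length hA.fst.snd.snd.snd.fst)) (NPC.Poly.length hA.fst.snd.snd.snd.fst)

theorem poly_gv {K : List Bool → List Bool} (hK : PolyTime K) {f : List Bool → F3}
    (hf : NPC.Poly f) : NPC.Poly (gv K f) := by
  have hu : NPC.Poly (fun y : List Bool => unpair y) := poly_unpair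
  have hxa : NPC.Poly (fun y : List Bool => unpair (unpair y).1) := poly_unpair.comp hu.fst
  have hA : NPC.Poly (fun y : List Bool => unbits Adv (unpair (unpair y).1).2) :=
    poly_unbits.comp hxa.snd
  have hW : NPC.Poly (fun y : List Bool => unbits (List F3) (unpair y).2) :=
    poly_unbits.comp hu.snd
  -- the inner test
  have hver : NPC.Poly (fun z : (List Bool × Adv) × List F3 =>
      ver K f (unpair (unpair z.1.1).1).1 z.1.2 z.2) := by
    unfold ver
    have hAA : NPC.Poly (fun z : (List Bool × Adv) × List F3 => z.1.2) :=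
      NPC.Poly.snd (NPC.Poly.fst NPC.Poly.id)
    have hΦ : NPC.Poly (fun z : (List Bool × Adv) × List F3 => z.2) := NPC.Poly.snd NPC.Poly.id
    refine NPC.Poly.and ((NPC.Poly.decide_mem (hf.comp (f := fun z : (List Bool × Adv) × List F3 =>
      (unpair (unpair z.1.1).1).1) (hxa.fst.comp (NPC.Poly.fst (NPC.Poly.fst NPC.Poly.id))))
      hΦ).congr fun z => decide_eq_decide.2 Iff.rfl)
      (NPC.Poly.and (NPC.Poly.decide_le (NPC.Poly.length hΦ) (poly_TT hAA))
      ((NPC.Poly.decide_mem (poly_app' hK (NPC.Poly.comp (g := fun z : PI => inst (dt z))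
        (f := fun z : (List Bool × Adv) × List F3 => zz z.1.2 z.2) poly_inst (poly_zz hAA hΦ)))
      hAA.snd).congr fun z => decide_eq_decide.2 Iff.rfl))
  have hin : NPC.Poly (fun z : List Bool × Adv => match unbits (List F3) (unpair z.1).2 with
      | none => false
      | some Φ => ver K f (unpair (unpair z.1).1).1 z.2 Φ) := by
    refine (NPC.Poly.optCases (o := fun z : List Bool × Adv => unbits (List F3) (unpair z.1).2)
      (g := fun _ => false) (h := fun z Φ => ver K f (unpair (unpair z.1).1).1 z.2 Φ)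
      (hW.comp (NPC.Poly.fst NPC.Poly.id)) (NPC.Poly.const false) hver).congr fun z => ?_
    cases unbits (List F3) (unpair z.1).2 <;> rfl
  refine (NPC.Poly.optCases (o := fun y : List Bool => unbits Adv (unpair (unpair y).1).2)
    (g := fun _ => false) (h := fun y A => match unbits (List F3) (unpair y).2 with
      | none => false
      | some Φ => ver K f (unpair (unpair y).1).1 A Φ) hA (NPC.Poly.const false) hin).congr
    fun y => ?_
  unfold gv
  cases unbits Adv (unpair (unpair y).1).2 <;> rfl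

theorem gv_pair {K : List Bool → List Bool} {f : List Bool → F3} (x w : List Bool) (A : Adv) :
    gv K f (pairBits (pairBits x (bits A)) w) = true ↔
      ∃ Φ : List F3, bits Φ = w ∧ f x ∈ Φ ∧ Φ.length ≤ TT A ∧
        K (bits (inst (dt (zz A Φ)))) ∈ A.2 := by
  unfold gv
  rw [unpair_pairBits]
  simp only
  rw [unpair_pairBits]
  simp only
  rw [unbits_bits]
  simp only
  cases h : unbits (List F3) w with
  | none =>
    constructor
    · intro h'; simp at h'
    · rintro ⟨Φ, rfl, _⟩
      rw [unbits_bits] at h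
      simp at h
  | some Φ =>
    have hw := bits_of_unbits h
    simp only
    unfold ver
    rw [Bool.and_eq_true, Bool.and_eq_true, decide_eq_true_iff, decide_eq_true_iff,
      decide_eq_true_iff]
    constructor
    · rintro ⟨h1, h2, h3⟩; exact ⟨Φ, hw, h1, h2, h3⟩
    · rintro ⟨Φ', hΦ', h1, h2, h3⟩
      have : Φ' = Φ := bits_injective (hΦ'.trans hw.symm)
      subst this
      exact ⟨h1, h2, h3⟩

theorem main (h : SmallCompression) : ∀ L : Set (List Bool), InCoNP L → InNPpoly L := by
  intro L hL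
  obtain ⟨K, B, c, hK, h⟩ := h
  obtain ⟨C, hadv⟩ := exists_advice h
  obtain ⟨f, hf, hfp, hfL⟩ := hardPr_SAT3b Lᶜ hL
  obtain ⟨q, hq⟩ := hf.length_le
  -- the size parameter
  let qN : Polynomial ℕ := q + Polynomial.C 1
  have hqN : ∀ n, qN.eval n = q.eval n + 1 := fun n => by simp [qN]
  have hN : ∀ n, 0 < qN.eval n := fun n => by rw [hqN]; omega
  choose adv0 ha1 ha2 ha3 ha4 ha5 ha6 using hadv
  let hP : Polynomial ℕ := Polynomial.C C * qN ^ 600
  have hhP : ∀ n, hP.eval n = C * (qN.eval n) ^ 600 := fun n => by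
    simp only [hP, Polynomial.eval_mul, Polynomial.eval_C, Polynomial.eval_pow]
  let adv : ℕ → Adv := fun n => adv0 (qN.eval n) (hN n)
  let QP : Polynomial ℕ :=
    ((Polynomial.C 2 * hP) * (Polynomial.C 8 * hP + Polynomial.C 2) + Polynomial.C 1) +
    (Polynomial.C 2 * hP + Polynomial.C 1) + (Polynomial.C 2 * hP + Polynomial.C 1) +
    (Polynomial.C 2 * hP + Polynomial.C 1) + (Polynomial.C 2 * qN + Polynomial.C 1) +
    ((qN + Polynomial.C 1) * (Polynomial.C 4 * (hP * hP * hP) + Polynomial.C 2) +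
      Polynomial.C 1) + Polynomial.C 5
  have hQP : ∀ n, QP.eval n = Q (hP.eval n) (qN.eval n) := fun n => by
    simp only [QP, Q, Polynomial.eval_mul, Polynomial.eval_C, Polynomial.eval_add]
  let P : Polynomial ℕ := QP + ((hP * hP * hP) * (qN + Polynomial.C 1) + Polynomial.C 1)
  have hPe : ∀ n, P.eval n = Q (hP.eval n) (qN.eval n) +
      ((hP.eval n * hP.eval n * hP.eval n) * (qN.eval n + 1) + 1) := fun n => by
    simp only [P, Polynomial.eval_mul, Polynomial.eval_C, Polynomial.eval_add, hQP]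
  refine ⟨fun y => [gv K f y], fun n => bits (adv n), P,
    polyTime_of_poly (poly_gv hK (poly_of_raw hf)), fun n => ?_, fun x => ?_⟩
  · -- the size of the advice
    rw [bits_length, hPe, hhP]
    exact (ha1 (qN.eval n) (hN n)).trans (Nat.le_add_right _ _)
  · have hfx : (bits (f x)).length ≤ q.eval x.length := hq x
    have hlenN : (f x).length ≤ qN.eval x.length := by
      rw [hqN]
      rw [bits_length] at hfx
      have := length_lt_sz (f x)
      omega
    have hgood : good (qN.eval x.length) (f x) = true := good_of_bounded (hfp x).2.1 hlenN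
    simp only [List.cons.injEq, and_true, gv_pair]
    constructor
    · intro hx
      have hns : ¬ SAT3 (f x) := fun hs => (hfL x).2 hs hx
      obtain ⟨Φ, hΦ1, hΦ2, hΦ3, hΦ4⟩ := ha6 (qN.eval x.length) (hN _) (f x)
        (by rw [hqN]; omega) (fun hh => hns hh.2)
      refine ⟨bits Φ, ?_, Φ, rfl, hΦ3, hΦ1.le, hΦ4⟩
      rw [bits_length]
      refine (sz_le_length_mul Φ (qN.eval x.length) (fun ψ hψ => ?_)).trans ?_
      · have := hΦ2 ψ hψ
        rwa [bits_length] at this
      · rw [hΦ1, hPe, hhP]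
        have := Nat.mul_le_mul_right (qN.eval x.length + 1) (ha3 (qN.eval x.length) (hN _))
        omega
    · rintro ⟨w, _, Φ, _, hΦ, hlΦ, hz⟩
      by_contra hx
      have hs : SAT3 (f x) := (hfL x).1 hx
      have hB := ha5 _ (hN x.length) _ hz
      apply hB
      obtain ⟨hwf, htf, hiff⟩ := ha4 _ (hN x.length) Φ hlΦ
      rw [(h _ hwf htf).1]
      exact hiff.2 ⟨f x, hΦ, hgood, hs⟩

end Pool.Agent.H801.Tri
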