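import Pool.Agent.H801.Tri.Graph

/-!
# Large independent sets of the graph of the reduction
-/

namespace Pool.Agent.H801.Tri

open Finset
open Pool.Agent.H801.Fvs (ent)

open Classical in
/-- The indicator of a set of labels. -/
noncomputable def ind (I : Finset E) (e : E) : ℕ := if e ∈ I then 1 else 0

theorem ind_one {I : Finset E} {e : E} (h : e ∈ I) : ind I e = 1 := by unfold ind; rw [if_pos h]

theorem ind_zero {I : Finset E} {e : E} (h : e ∉ I) : ind I e = 0 := by unfold ind; rw [if_neg h]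

theorem ind_le (I : Finset E) (e : E) : ind I e ≤ 1 := by unfold ind; split_ifs <;> simp

theorem mem_of_ind {I : Finset E} {e : E} (h : ind I e ≠ 0) : e ∈ I := by
  by_contra hn
  exact h (ind_zero hn)

theorem card_kind (I : Finset E) (κ a b c : ℕ)
    (h : ∀ e ∈ I, e.1 = κ → e.2.1 < a ∧ e.2.2.1 < b ∧ e.2.2.2 < c) :
    (I.filter (fun e => e.1 = κ)).card =
      ∑ x ∈ range a, ∑ y ∈ range b, ∑ z ∈ range c, ind I (κ, x, y, z) := by
  classical
  have h1 : ∀ x, ∑ y ∈ range b, ∑ z ∈ range c, ind I (κ, x, y, z) =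
      ∑ p ∈ range b ×ˢ range c, ind I (κ, x, p.1, p.2) := by
    intro x
    rw [Finset.sum_product' (range b) (range c) (fun y z => ind I (κ, x, y, z))]
  simp only [h1]
  rw [← Finset.sum_product' (range a) (range b ×ˢ range c) (fun x p => ind I (κ, x, p.1, p.2))]
  unfold ind
  rw [← Finset.card_filter]
  refine Finset.card_nbij' (fun e => e.2) (fun p => (κ, p)) ?_ ?_ ?_ ?_
  · intro e he
    rw [Finset.mem_coe, Finset.mem_filter] at he
    obtain ⟨h2, h3, h4⟩ := h e he.1 he.2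
    rw [Finset.mem_coe, Finset.mem_filter, Finset.mem_product, Finset.mem_product,
      Finset.mem_range, Finset.mem_range, Finset.mem_range]
    refine ⟨⟨h2, h3, h4⟩, ?_⟩
    have : ((κ, e.2) : E) = e := by rw [← he.2]
    show ((κ, e.2) : E) ∈ I
    rw [this]
    exact he.1
  · intro p hp
    rw [Finset.mem_coe, Finset.mem_filter] at hp
    rw [Finset.mem_coe, Finset.mem_filter]
    exact ⟨hp.2, rfl⟩
  · intro e he
    rw [Finset.mem_coe, Finset.mem_filter] at he
    show ((κ, e.2) : E) = e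
    rw [← he.2]
  · intro p _
    rfl

/-- The number of chosen vertices in a column. -/
noncomputable def cn (I : Finset E) (r σ j : ℕ) : ℕ :=
  ∑ x ∈ range r, ind I (0, σ, x, j) + ind I (1, σ, j, 0)

theorem card_formula {D : Dat} {I : Finset E} (hI : ∀ x ∈ I, x ∈ labs D) :
    I.card = (∑ σ ∈ range 2, ∑ j ∈ range (D.h + D.h), cn I D.r σ j) +
      (∑ a ∈ range D.na, ∑ κ ∈ range D.nk, (ind I (2, a, 0, κ) + ind I (2, a, 1, κ))) +
      ∑ c ∈ range D.cls.length, ∑ i ∈ range 9, ind I (3, c, i, 0) := by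
  classical
  have hm : ∀ e ∈ I, _ := fun e he => mem_labs.1 (hI e he)
  have h0 := card_kind I 0 2 D.r (D.h + D.h) (fun e he h => by have := hm e he; omega)
  have h1 := card_kind I 1 2 D.h 1 (fun e he h => by have := hm e he; omega)
  have h2 := card_kind I 2 D.na 2 D.nk (fun e he h => by have := hm e he; omega)
  have h3 := card_kind I 3 D.cls.length 9 1 (fun e he h => by have := hm e he; omega)
  have h4 := Finset.card_eq_sum_card_fiberwise (f := fun e : E => e.1) (s := I) (t := range 4)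
    (fun e he => by
      have := hm e he
      rw [Finset.coe_range, Set.mem_Iio]
      show e.1 < 4
      omega)
  rw [h4, Finset.sum_range_succ, Finset.sum_range_succ, Finset.sum_range_succ,
    Finset.sum_range_one, h0, h1, h2, h3]
  have e0 : ∀ σ, ∑ x ∈ range D.r, ∑ j ∈ range (D.h + D.h), ind I (0, σ, x, j) =
      ∑ j ∈ range (D.h + D.h), ∑ x ∈ range D.r, ind I (0, σ, x, j) :=
    fun σ => Finset.sum_comm
  have e1 : ∀ σ, ∑ j ∈ range D.h, ind I (1, σ, j, 0) =
      ∑ j ∈ range (D.h + D.h), ind I (1, σ, j, 0) := by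
    intro σ
    refine Finset.sum_subset (Finset.range_subset_range.2 (by omega)) (fun j _ hj => ?_)
    rw [Finset.mem_range] at hj
    refine ind_zero (fun hmem => ?_)
    have := hm _ hmem
    simp only at this
    omega
  have e2 : ∀ a, ∑ v ∈ range 2, ∑ κ ∈ range D.nk, ind I (2, a, v, κ) =
      ∑ κ ∈ range D.nk, (ind I (2, a, 0, κ) + ind I (2, a, 1, κ)) := by
    intro a
    rw [Finset.sum_add_distrib, Finset.sum_range_succ, Finset.sum_range_one]
  simp only [e0, Finset.sum_range_one, e1, e2]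
  simp only [cn, Finset.sum_add_distrib]

theorem eq_of_sum {ι : Type} {s : Finset ι} {f : ι → ℕ} {b : ℕ} (h : ∀ i ∈ s, f i ≤ b)
    (hs : s.card * b ≤ ∑ i ∈ s, f i) : ∀ i ∈ s, f i = b := by
  have h1 : ∑ i ∈ s, f i = ∑ _i ∈ s, b := by
    refine le_antisymm (Finset.sum_le_sum h) ?_
    rw [Finset.sum_const, smul_eq_mul]
    exact hs
  exact (Finset.sum_eq_sum_iff_of_le h).1 h1

theorem sum_le_mul {ι : Type} {s : Finset ι} {f : ι → ℕ} {b : ℕ} (h : ∀ i ∈ s, f i ≤ b) :
    ∑ i ∈ s, f i ≤ s.card * b := by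
  refine (Finset.sum_le_sum h).trans ?_
  rw [Finset.sum_const, smul_eq_mul]

/-- The count on one side. -/
theorem side_count (n : ℕ → ℕ) {h r : ℕ} (hr : 1 ≤ r) (hn : ∀ j < h + h, n j ≤ r)
    (hexp : ((range (h + h)).filter (fun j => 2 ≤ n j)).Nonempty →
      r * ((range (h + h)).filter (fun j => 2 ≤ n j)).card ≤
        ((range (h + h)).filter (fun j => h ≤ j ∧ n j = 0)).card) :
    ∑ j ∈ range (h + h), n j ≤ h + h ∧
      (h + h ≤ ∑ j ∈ range (h + h), n j → ∀ j < h + h, n j = 1) := by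
  obtain ⟨r', rfl⟩ : ∃ r', r = r' + 1 := ⟨r - 1, by omega⟩
  set H := (range (h + h)).filter (fun j => 2 ≤ n j) with hH
  set E0 := (range (h + h)).filter (fun j => h ≤ j ∧ n j = 0) with hE0
  have h1 : ∑ j ∈ range (h + h), n j + E0.card ≤ (h + h) + r' * H.card := by
    have h2 : ∀ j ∈ range (h + h), n j + (if h ≤ j ∧ n j = 0 then 1 else 0) ≤
        1 + r' * (if 2 ≤ n j then 1 else 0) := by
      intro j hj
      have := hn j (Finset.mem_range.1 hj)
      split_ifs <;> omega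
    have h3 := Finset.sum_le_sum h2
    rw [Finset.sum_add_distrib, Finset.sum_add_distrib, ← Finset.mul_sum, ← Finset.card_filter,
      ← Finset.card_filter, Finset.sum_const, Finset.card_range, smul_eq_mul, mul_one] at h3
    exact h3
  by_cases hne : H.Nonempty
  · have h2 := hexp hne
    have h3 := Finset.card_pos.2 hne
    rw [Nat.add_mul, one_mul] at h2
    omega
  · rw [Finset.not_nonempty_iff_eq_empty] at hne
    rw [hne, Finset.card_empty, mul_zero] at h1
    refine ⟨by omega, fun hge j hj => ?_⟩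
    refine eq_of_sum (s := range (h + h)) (f := n) (b := 1) (fun i hi => ?_) (by
      rw [Finset.card_range, mul_one]; exact hge) j (Finset.mem_range.2 hj)
    by_contra hcon
    have : i ∈ H := by rw [hH, Finset.mem_filter]; exact ⟨hi, by omega⟩
    rw [hne] at this
    simp at this

/-- Literals are true if the representing vertex is not chosen. -/
def tru (P : ℕ → ℕ → Prop) (τ : ℕ → ℕ → ℕ) (e : E) : Prop :=
  (e.1 = 1 ∧ P e.2.1 e.2.2.1) ∨ (e.1 = 2 ∧ τ e.2.1 e.2.2.2 ≠ e.2.2.1)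

/-- A row, sets of columns on the two sides, and an assignment which satisfy the clauses and avoid
the conflicts. -/
def Sol (D : Dat) : Prop :=
  ∃ x < D.r, ∃ (P : ℕ → ℕ → Prop) (τ : ℕ → ℕ → ℕ), (∀ a κ, τ a κ ≤ 1) ∧
    (∀ c ∈ D.cls, tru P τ c.1 ∨ tru P τ c.2.1 ∨ tru P τ c.2.2) ∧
    ∀ i < D.h, ∀ i' < D.h, P 0 i → P 1 i' → D.cf x i i' = false

section

variable {D : Dat} {I : Finset E}

theorem nonadjA (hind : ∀ x ∈ I, ∀ y ∈ I, ¬ adjR D x y) {x y : E} (hx : x ∈ I) (hy : y ∈ I)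
    (hne : x ≠ y) : ¬ adjA D x y := fun h => hind x hx y hy ⟨hne, Or.inl h⟩

/-- Rows of adjacent columns agree. -/
theorem row_eq (hind : ∀ x ∈ I, ∀ y ∈ I, ¬ adjR D x y) {σ x y i j : ℕ}
    (hx : ((0, σ, x, i) : E) ∈ I) (hy : ((0, σ, y, j) : E) ∈ I) (h : ent D.A i j = true) :
    x = y := by
  by_contra hne
  refine nonadjA hind hx hy (fun he => ?_) (Or.inl ⟨rfl, rfl, rfl, hne, h⟩)
  simp only [Prod.mk.injEq, true_and] at he
  exact hne he.1

theorem no_z (hind : ∀ x ∈ I, ∀ y ∈ I, ¬ adjR D x y) {σ x j : ℕ}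
    (hx : ((0, σ, x, j) : E) ∈ I) : ((1, σ, j, 0) : E) ∉ I := by
  intro hz
  refine nonadjA hind hz hx (fun he => ?_) (Or.inr (Or.inr (Or.inl ⟨rfl, rfl, rfl, rfl⟩)))
  simp at he

theorem two_rows (hind : ∀ x ∈ I, ∀ y ∈ I, ¬ adjR D x y) {r σ j : ℕ} (h : 2 ≤ cn I r σ j) :
    ∃ x y, x ≠ y ∧ ((0, σ, x, j) : E) ∈ I ∧ ((0, σ, y, j) : E) ∈ I := by
  classical
  unfold cn at h
  by_cases hz : ((1, σ, j, 0) : E) ∈ I
  · have h0 : ∑ x ∈ range r, ind I (0, σ, x, j) = 0 :=
      Finset.sum_eq_zero fun x _ => ind_zero fun hx => no_z hind hx hz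
    have := ind_le I (1, σ, j, 0)
    omega
  · rw [ind_zero hz, Nat.add_zero] at h
    unfold ind at h
    rw [← Finset.card_filter] at h
    obtain ⟨x, hx, y, hy, hxy⟩ := Finset.one_lt_card.1 h
    exact ⟨x, y, hxy, (Finset.mem_filter.1 hx).2, (Finset.mem_filter.1 hy).2⟩

theorem exists_row {r σ j : ℕ} (h : cn I r σ j ≠ 0) (hz : ((1, σ, j, 0) : E) ∉ I) :
    ∃ x < r, ((0, σ, x, j) : E) ∈ I := by
  unfold cn at h
  rw [ind_zero hz, Nat.add_zero] at h
  obtain ⟨x, hx, hx'⟩ := Finset.exists_ne_zero_of_sum_ne_zero h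
  exact ⟨x, Finset.mem_range.1 hx, mem_of_ind hx'⟩

theorem side_le (hH : Host D.A D.h D.r) (hr : 1 ≤ D.r) (hI : ∀ x ∈ I, x ∈ labs D)
    (hind : ∀ x ∈ I, ∀ y ∈ I, ¬ adjR D x y) (σ : ℕ) :
    ∑ j ∈ range (D.h + D.h), cn I D.r σ j ≤ D.h + D.h ∧
      (D.h + D.h ≤ ∑ j ∈ range (D.h + D.h), cn I D.r σ j → ∀ j < D.h + D.h, cn I D.r σ j = 1) := by
  apply side_count (cn I D.r σ) hr
  · intro j _
    by_contra hcon
    push Not at hcon
    unfold cn at hcon
    by_cases hz : ((1, σ, j, 0) : E) ∈ I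
    · have h0 : ∑ x ∈ range D.r, ind I (0, σ, x, j) = 0 :=
        Finset.sum_eq_zero fun x _ => ind_zero fun hx => no_z hind hx hz
      have := ind_le I (1, σ, j, 0)
      omega
    · rw [ind_zero hz, Nat.add_zero] at hcon
      have := sum_le_mul (s := range D.r) (f := fun x => ind I (0, σ, x, j)) (b := 1)
        (fun x _ => ind_le _ _)
      rw [Finset.card_range, mul_one] at this
      omega
  · intro hne
    have key : ∀ i ∈ (range (D.h + D.h)).filter (fun j => 2 ≤ cn I D.r σ j), ∀ j,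
        ent D.A i j = true → ∀ y, ((0, σ, y, j) : E) ∉ I := by
      intro i hi j hij y hy
      obtain ⟨x, x', hxx, hx, hx'⟩ := two_rows hind (Finset.mem_filter.1 hi).2
      exact hxx ((row_eq hind hx hy hij).trans (row_eq hind hx' hy hij).symm)
    refine (hH.exp _ (Finset.filter_subset _ _) hne (fun i hi j hj => ?_)).trans
      (Finset.card_le_card fun j hj => ?_)
    · rw [Bool.eq_false_iff]
      intro hij
      obtain ⟨y, _, _, hy, _⟩ := two_rows hind (Finset.mem_filter.1 hj).2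
      exact key i hi j hij y hy
    · rw [Finset.mem_filter] at hj ⊢
      obtain ⟨h1, h2, i, hi, hij⟩ := hj
      refine ⟨h1, h2, ?_⟩
      by_contra hcon
      have hz : ((1, σ, j, 0) : E) ∉ I := by
        intro hz
        have := mem_labs.1 (hI _ hz)
        simp only at this
        omega
      obtain ⟨x, _, hx⟩ := exists_row hcon hz
      exact key i hi j hij x hx

theorem side_row (hH : Host D.A D.h D.r) (hh : 0 < D.h) (hI : ∀ x ∈ I, x ∈ labs D)
    (hind : ∀ x ∈ I, ∀ y ∈ I, ¬ adjR D x y) {σ : ℕ}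
    (hcn : ∀ j < D.h + D.h, cn I D.r σ j = 1) :
    ∃ x < D.r, ∀ j < D.h + D.h, ((1, σ, j, 0) : E) ∉ I → ((0, σ, x, j) : E) ∈ I := by
  classical
  have hrow : ∀ j, ∃ x, j < D.h + D.h → ((1, σ, j, 0) : E) ∉ I →
      x < D.r ∧ ((0, σ, x, j) : E) ∈ I := by
    intro j
    by_cases hj : j < D.h + D.h ∧ ((1, σ, j, 0) : E) ∉ I
    · obtain ⟨x, hx, hx'⟩ := exists_row (by rw [hcn j hj.1]; simp) hj.2
      exact ⟨x, fun _ _ => ⟨hx, hx'⟩⟩
    · exact ⟨0, fun h1 h2 => absurd ⟨h1, h2⟩ hj⟩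
  choose c hc using hrow
  have hz : ∀ j, D.h ≤ j → ((1, σ, j, 0) : E) ∉ I := by
    intro j hj hz
    have := mem_labs.1 (hI _ hz)
    simp only at this
    omega
  have hconn := hH.conn (fun j => ((1, σ, j, 0) : E) ∉ I) c (fun j hj _ => hz j hj)
    (fun i hi j hj hi' hj' hij => row_eq hind (hc i hi hi').2 (hc j hj hj').2 hij)
  refine ⟨c D.h, (hc D.h (by omega) (hz _ le_rfl)).1, fun j hj hj' => ?_⟩
  rw [← hconn j hj hj']
  exact (hc j hj hj').2

theorem sol_of_indep (hH : Host D.A D.h D.r) (hh : 0 < D.h) (hr : 1 ≤ D.r) (hD : ok D)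
    (hI : ∀ x ∈ I, x ∈ labs D) (hind : ∀ x ∈ I, ∀ y ∈ I, ¬ adjR D x y) (hc : kk D ≤ I.card) :
    Sol D := by
  classical
  rw [card_formula hI] at hc
  have s1 : ∀ σ ∈ range 2, ∑ j ∈ range (D.h + D.h), cn I D.r σ j ≤ D.h + D.h :=
    fun σ _ => (side_le hH hr hI hind σ).1
  have a1 : ∀ a κ, ind I (2, a, 0, κ) + ind I (2, a, 1, κ) ≤ 1 := by
    intro a κ
    by_contra hcon
    have h0 := ind_le I (2, a, 0, κ)
    have h1 := ind_le I (2, a, 1, κ)
    refine nonadjA hind (x := (2, a, 0, κ)) (y := (2, a, 1, κ)) (mem_of_ind (by omega))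
      (mem_of_ind (by omega)) (by simp)
      (Or.inr (Or.inr (Or.inr (Or.inl ⟨rfl, rfl, rfl, rfl, rfl, rfl⟩))))
  have a2 : ∀ a ∈ range D.na, ∑ κ ∈ range D.nk, (ind I (2, a, 0, κ) + ind I (2, a, 1, κ)) ≤
      D.nk := by
    intro a _
    have := sum_le_mul (s := range D.nk)
      (f := fun κ => ind I (2, a, 0, κ) + ind I (2, a, 1, κ)) (b := 1) (fun κ _ => a1 a κ)
    rwa [Finset.card_range, mul_one] at this
  have hadj : ∀ c i i', (i + 1 = i' ∨ (i = 0 ∧ i' = 8)) → i ≠ i' →
      ind I (3, c, i, 0) + ind I (3, c, i', 0) ≤ 1 := by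
    intro c i i' hii hne
    by_contra hcon
    have h0 := ind_le I (3, c, i, 0)
    have h1 := ind_le I (3, c, i', 0)
    refine nonadjA hind (x := (3, c, i, 0)) (y := (3, c, i', 0)) (mem_of_ind (by omega))
      (mem_of_ind (by omega)) (fun he => ?_)
      (Or.inr (Or.inr (Or.inr (Or.inr (Or.inl ⟨rfl, rfl, rfl, hii⟩)))))
    simp only [Prod.mk.injEq, true_and, and_true] at he
    exact hne he
  have hsum : ∀ c, ∑ i ∈ range 9, ind I (3, c, i, 0) =
      ind I (3, c, 0, 0) + ind I (3, c, 1, 0) + ind I (3, c, 2, 0) + ind I (3, c, 3, 0) +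
      ind I (3, c, 4, 0) + ind I (3, c, 5, 0) + ind I (3, c, 6, 0) + ind I (3, c, 7, 0) +
      ind I (3, c, 8, 0) := by
    intro c
    simp only [Finset.sum_range_succ, Finset.sum_range_zero, Nat.zero_add]
  have c1 : ∀ c ∈ range D.cls.length, ∑ i ∈ range 9, ind I (3, c, i, 0) ≤ 4 := by
    intro c _
    rw [hsum]
    have e0 := hadj c 0 1 (by omega) (by omega)
    have e1 := hadj c 1 2 (by omega) (by omega)
    have e2 := hadj c 2 3 (by omega) (by omega)
    have e3 := hadj c 3 4 (by omega) (by omega)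
    have e4 := hadj c 4 5 (by omega) (by omega)
    have e5 := hadj c 5 6 (by omega) (by omega)
    have e6 := hadj c 6 7 (by omega) (by omega)
    have e7 := hadj c 7 8 (by omega) (by omega)
    have e8 := hadj c 0 8 (by omega) (by omega)
    omega
  have t1 := sum_le_mul s1
  have t2 := sum_le_mul a2
  have t3 := sum_le_mul c1
  rw [Finset.card_range] at t1 t2 t3
  unfold kk at hc
  have S1 := eq_of_sum s1 (by rw [Finset.card_range]; omega)
  have A2 := eq_of_sum a2 (by rw [Finset.card_range]; omega)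
  have C1 := eq_of_sum c1 (by rw [Finset.card_range]; omega)
  have A1 : ∀ a < D.na, ∀ κ < D.nk, ind I (2, a, 0, κ) + ind I (2, a, 1, κ) = 1 := by
    intro a ha κ hκ
    exact eq_of_sum (s := range D.nk) (f := fun κ => ind I (2, a, 0, κ) + ind I (2, a, 1, κ))
      (b := 1) (fun κ _ => a1 a κ)
      (by rw [A2 a (Finset.mem_range.2 ha), Finset.card_range, mul_one]) κ (Finset.mem_range.2 hκ)
  have R : ∀ σ < 2, ∃ x < D.r, ∀ j < D.h + D.h, ((1, σ, j, 0) : E) ∉ I →
      ((0, σ, x, j) : E) ∈ I := fun σ hσ =>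
    side_row hH hh hI hind ((side_le hH hr hI hind σ).2 (S1 σ (Finset.mem_range.2 hσ)).ge)
  obtain ⟨x, hx, R0⟩ := R 0 (by omega)
  obtain ⟨x', hx', R1⟩ := R 1 (by omega)
  have hz : ∀ σ j, D.h ≤ j → ((1, σ, j, 0) : E) ∉ I := by
    intro σ j hj hz
    have := mem_labs.1 (hI _ hz)
    simp only at this
    omega
  have hxx : x = x' := by
    by_contra hne
    refine nonadjA hind (R0 D.h (by omega) (hz 0 _ le_rfl)) (R1 D.h (by omega) (hz 1 _ le_rfl))
      (by simp) (Or.inr (Or.inl ⟨rfl, rfl, rfl, rfl, Or.inr ⟨hne, rfl, rfl⟩⟩))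
  subst hxx
  refine ⟨x, hx, fun σ j => ((1, σ, j, 0) : E) ∉ I,
    fun a κ => if ((2, a, 1, κ) : E) ∈ I then 1 else 0, fun a κ => by
      beta_reduce
      split_ifs <;> simp,
    fun c hcm => ?_, fun i hi i' hi' h0 h1 => ?_⟩
  · obtain ⟨q, hq, rfl⟩ := List.getElem_of_mem hcm
    have hq4 := C1 q (Finset.mem_range.2 hq)
    rw [hsum] at hq4
    have e0 := hadj q 1 2 (by omega) (by omega)
    have e1 := hadj q 4 5 (by omega) (by omega)
    have e2 := hadj q 7 8 (by omega) (by omega)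
    have hgd : D.cls.getD q dfl = D.cls[q] := List.getD_eq_getElem _ _ hq
    obtain ⟨o1, o2, o3⟩ := hD _ hcm
    have htru : ∀ e, okE D e → e ∉ I → tru (fun σ j => ((1, σ, j, 0) : E) ∉ I)
        (fun a κ => if ((2, a, 1, κ) : E) ∈ I then 1 else 0) e := by
      intro e he heI
      obtain ⟨e1, e2, e3, e4⟩ := e
      rcases he with ⟨f1, f2, f3, f4⟩ | ⟨f1, f2, f3, f4⟩
      · simp only at f1 f2 f3 f4
        subst f1 f4
        exact Or.inl ⟨rfl, heI⟩
      · simp only at f1 f2 f3 f4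
        subst f1
        refine Or.inr ⟨rfl, ?_⟩
        have hA := A1 e2 f2 e4 f4
        have : e3 = 0 ∨ e3 = 1 := by omega
        rcases this with rfl | rfl
        · rw [ind_zero heI] at hA
          have hm : ((2, e2, 1, e4) : E) ∈ I := mem_of_ind (by omega)
          simp only [if_pos hm]
          omega
        · simp only [if_neg heI]
          omega
    by_cases g0 : ind I (3, q, 0, 0) = 0
    · by_cases g3 : ind I (3, q, 3, 0) = 0
      · have g6 : ind I (3, q, 6, 0) ≠ 0 := by omega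
        refine Or.inr (Or.inr (htru _ o3 (fun hmem => ?_)))
        refine nonadjA hind (mem_of_ind g6) hmem (fun he => ?_)
          (Or.inr (Or.inr (Or.inr (Or.inr (Or.inr ⟨rfl, Or.inr (Or.inr ⟨rfl, ?_⟩)⟩)))))
        · have := okE_kind o3
          rw [← he] at this
          simp at this
        · simp only [hgd]
      · refine Or.inr (Or.inl (htru _ o2 (fun hmem => ?_)))
        refine nonadjA hind (mem_of_ind g3) hmem (fun he => ?_)
          (Or.inr (Or.inr (Or.inr (Or.inr (Or.inr ⟨rfl, Or.inr (Or.inl ⟨rfl, ?_⟩)⟩)))))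
        · have := okE_kind o2
          rw [← he] at this
          simp at this
        · simp only [hgd]
    · refine Or.inl (htru _ o1 (fun hmem => ?_))
      refine nonadjA hind (mem_of_ind g0) hmem (fun he => ?_)
        (Or.inr (Or.inr (Or.inr (Or.inr (Or.inr ⟨rfl, Or.inl ⟨rfl, ?_⟩⟩)))))
      · have := okE_kind o1
        rw [← he] at this
        simp at this
      · simp only [hgd]
  · rw [Bool.eq_false_iff]
    intro hcf
    refine nonadjA hind (R0 i (by omega) h0) (R1 i' (by omega) h1) (by simp)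
      (Or.inr (Or.inl ⟨rfl, rfl, rfl, rfl, Or.inl ⟨rfl, hi, hi', hcf⟩⟩))

end

end Pool.Agent.H801.Tri
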