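import Pool.Agent.H801.Tri.Sol

/-!
# Large independent sets from solutions
-/

namespace Pool.Agent.H801.Tri

open Finset
open Pool.Agent.H801.Fvs (ent)

/-- The chosen vertices of the cycle of a clause. -/
def qs (b0 b1 : Prop) (i : ℕ) : Prop :=
  (b0 ∧ (i = 0 ∨ i = 2 ∨ i = 4 ∨ i = 7)) ∨ (¬ b0 ∧ b1 ∧ (i = 1 ∨ i = 3 ∨ i = 5 ∨ i = 7)) ∨
    (¬ b0 ∧ ¬ b1 ∧ (i = 1 ∨ i = 4 ∨ i = 6 ∨ i = 8))

/-- The chosen vertices. -/
def sel (D : Dat) (x : ℕ) (P : ℕ → ℕ → Prop) (τ : ℕ → ℕ → ℕ) (e : E) : Prop :=
  (e.1 = 0 ∧ e.2.2.1 = x ∧ (D.h ≤ e.2.2.2 ∨ P e.2.1 e.2.2.2)) ∨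
  (e.1 = 1 ∧ ¬ P e.2.1 e.2.2.1) ∨
  (e.1 = 2 ∧ e.2.2.1 = τ e.2.1 e.2.2.2) ∨
  (e.1 = 3 ∧ qs (tru P τ (D.cls.getD e.2.1 dfl).1) (tru P τ (D.cls.getD e.2.1 dfl).2.1) e.2.2.1)

theorem not_sel_of_tru {D : Dat} {x : ℕ} {P : ℕ → ℕ → Prop} {τ : ℕ → ℕ → ℕ} {e : E}
    (h : tru P τ e) : ¬ sel D x P τ e := by
  intro hs
  rcases h with ⟨h1, h2⟩ | ⟨h1, h2⟩
  · rcases hs with hs | hs | hs | hs
    · omega
    · exact hs.2 h2
    · omega
    · omega
  · rcases hs with hs | hs | hs | hs
    · omega
    · omega
    · exact h2 hs.2.symm
    · omega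

theorem sel_indep {D : Dat} {x : ℕ} {P : ℕ → ℕ → Prop} {τ : ℕ → ℕ → ℕ}
    (hcl : ∀ c ∈ D.cls, tru P τ c.1 ∨ tru P τ c.2.1 ∨ tru P τ c.2.2)
    (hcf : ∀ i < D.h, ∀ i' < D.h, P 0 i → P 1 i' → D.cf x i i' = false) {e f : E}
    (he : e ∈ labs D) (hse : sel D x P τ e) (hsf : sel D x P τ f)
    (h : adjA D e f) : False := by
  have me := mem_labs.1 he
  rcases h with h | h | h | h | h | h
  · rcases hse with a | a | a | a
    · rcases hsf with b | b | b | b
      · exact h.2.2.2.1 (a.2.1.trans b.2.1.symm)
      all_goals omega
    all_goals omega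
  · rcases hse with a | a | a | a
    · rcases hsf with b | b | b | b
      · obtain ⟨h1, h2, h3, h4, h5⟩ := h
        rcases h5 with ⟨h5, h6, h7, h8⟩ | ⟨h5, _, _⟩
        · have ha : P 0 e.2.2.2 := by
            rcases a.2.2 with a' | a'
            · omega
            · rwa [h3] at a'
          have hb : P 1 f.2.2.2 := by
            rcases b.2.2 with b' | b'
            · omega
            · rwa [h4] at b'
          have := hcf _ h6 _ h7 ha hb
          rw [a.2.1, this] at h8
          simp at h8
        · exact h5 (a.2.1.trans b.2.1.symm)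
      all_goals omega
    all_goals omega
  · rcases hse with a | a | a | a
    · omega
    · rcases hsf with b | b | b | b
      · rcases b.2.2 with b' | b'
        · omega
        · rw [← h.2.2.1, ← h.2.2.2] at b'
          exact a.2 b'
      all_goals omega
    all_goals omega
  · rcases hse with a | a | a | a
    · omega
    · omega
    · rcases hsf with b | b | b | b
      · omega
      · omega
      · have e1 := a.2
        have e2 := b.2
        rw [h.2.2.1, h.2.2.2.1, ← e2] at e1
        omega
      · omega
    · omega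
  · rcases hse with a | a | a | a
    · omega
    · omega
    · omega
    · rcases hsf with b | b | b | b
      · omega
      · omega
      · omega
      · have e1 := a.2
        have e2 := b.2
        rw [h.2.2.1] at e1
        unfold qs at e1 e2
        rcases e1 with e1 | e1 | e1 <;> rcases e2 with e2 | e2 | e2
        · omega
        · exact e2.1 e1.1
        · exact e2.1 e1.1
        · exact e1.1 e2.1
        · omega
        · exact e2.2.1 e1.2.1
        · exact e1.1 e2.1
        · exact e1.2.1 e2.2.1
        · omega
  · rcases hse with a | a | a | a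
    · omega
    · omega
    · omega
    · have e1 := a.2
      unfold qs at e1
      have hi : e.2.1 < D.cls.length := by omega
      have hc := hcl _ (show D.cls.getD e.2.1 dfl ∈ D.cls by
        rw [List.getD_eq_getElem _ _ hi]
        exact List.getElem_mem _)
      rcases h.2 with ⟨g1, g2⟩ | ⟨g1, g2⟩ | ⟨g1, g2⟩
      · rcases e1 with e1 | e1 | e1
        · rw [g2] at hsf
          exact not_sel_of_tru e1.1 hsf
        · omega
        · omega
      · rcases e1 with e1 | e1 | e1
        · omega
        · rw [g2] at hsf
          exact not_sel_of_tru e1.2.1 hsf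
        · omega
      · rcases e1 with e1 | e1 | e1
        · omega
        · omega
        · rw [g2] at hsf
          rcases hc with hc | hc | hc
          · exact e1.1 hc
          · exact e1.2.1 hc
          · exact not_sel_of_tru hc hsf

theorem indep_of_sol {D : Dat} (h : Sol D) : ∃ I : Finset E, (∀ x ∈ I, x ∈ labs D) ∧
    (∀ x ∈ I, ∀ y ∈ I, ¬ adjR D x y) ∧ kk D ≤ I.card := by
  classical
  obtain ⟨x, hx, P, τ, hτ, hcl, hcf⟩ := h
  set I : Finset E := (labs D).toFinset.filter (sel D x P τ) with hI
  have hmem : ∀ e, e ∈ I ↔ e ∈ labs D ∧ sel D x P τ e := by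
    intro e
    rw [hI, Finset.mem_filter, List.mem_toFinset]
  have hlab : ∀ e ∈ I, e ∈ labs D := fun e he => ((hmem e).1 he).1
  refine ⟨I, hlab, fun e he f hf hef => ?_, ?_⟩
  · rw [hmem] at he hf
    rcases hef.2 with h | h
    · exact sel_indep hcl hcf he.1 he.2 hf.2 h
    · exact sel_indep hcl hcf hf.1 hf.2 he.2 h
  · rw [card_formula hlab]
    have h1 : ∀ σ ∈ range 2, ∑ j ∈ range (D.h + D.h), cn I D.r σ j = D.h + D.h := by
      intro σ hσ
      rw [Finset.mem_range] at hσ
      have h2 : ∀ j ∈ range (D.h + D.h), cn I D.r σ j = 1 := by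
        intro j hj
        rw [Finset.mem_range] at hj
        unfold cn
        by_cases hP : D.h ≤ j ∨ P σ j
        · have h3 : ∑ x' ∈ range D.r, ind I (0, σ, x', j) =
              ∑ x' ∈ range D.r, if x' = x then 1 else 0 := by
            refine Finset.sum_congr rfl fun x' hx' => ?_
            rw [Finset.mem_range] at hx'
            by_cases hxx : x' = x
            · rw [if_pos hxx]
              refine ind_one ((hmem _).2 ⟨mem_labs.2 (Or.inl ⟨rfl, hσ, hx', hj⟩), ?_⟩)
              exact Or.inl ⟨rfl, hxx, hP⟩
            · rw [if_neg hxx]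
              refine ind_zero (fun hm => ?_)
              rcases ((hmem _).1 hm).2 with a | a | a | a
              · exact hxx a.2.1
              all_goals simp at a
          have h4 : ind I (1, σ, j, 0) = 0 := by
            refine ind_zero (fun hm => ?_)
            obtain ⟨m1, m2⟩ := (hmem _).1 hm
            have m3 := mem_labs.1 m1
            simp only at m3
            rcases m2 with a | a | a | a
            · simp at a
            · rcases hP with hP | hP
              · omega
              · exact a.2 hP
            · simp at a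
            · simp at a
          rw [h3, h4, Finset.sum_ite_eq', if_pos (Finset.mem_range.2 hx)]
        · push Not at hP
          have h3 : ∑ x' ∈ range D.r, ind I (0, σ, x', j) = 0 := by
            refine Finset.sum_eq_zero fun x' _ => ind_zero (fun hm => ?_)
            rcases ((hmem _).1 hm).2 with a | a | a | a
            · rcases a.2.2 with b | b
              · simp only at b
                omega
              · exact hP.2 b
            all_goals simp at a
          have h4 : ind I (1, σ, j, 0) = 1 := by
            refine ind_one ((hmem _).2 ⟨mem_labs.2 (Or.inr (Or.inl ⟨rfl, hσ, hP.1, ?_⟩)), ?_⟩)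
            · simp
            · exact Or.inr (Or.inl ⟨rfl, hP.2⟩)
          rw [h3, h4]
      rw [Finset.sum_congr rfl h2, Finset.sum_const, Finset.card_range, smul_eq_mul, mul_one]
    have h2 : ∀ a ∈ range D.na, ∑ κ ∈ range D.nk, (ind I (2, a, 0, κ) + ind I (2, a, 1, κ)) =
        D.nk := by
      intro a ha
      rw [Finset.mem_range] at ha
      have h3 : ∀ κ ∈ range D.nk, ind I (2, a, 0, κ) + ind I (2, a, 1, κ) = 1 := by
        intro κ hκ
        rw [Finset.mem_range] at hκ
        have hτ1 := hτ a κ
        have key : ∀ v, v < 2 → ind I (2, a, v, κ) = if v = τ a κ then 1 else 0 := by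
          intro v hv
          split_ifs with hvt
          · exact ind_one ((hmem _).2 ⟨mem_labs.2 (Or.inr (Or.inr (Or.inl ⟨rfl, ha, hv, hκ⟩))),
              Or.inr (Or.inr (Or.inl ⟨rfl, hvt⟩))⟩)
          · refine ind_zero (fun hm => ?_)
            rcases ((hmem _).1 hm).2 with a | a | a | a
            · simp at a
            · simp at a
            · exact hvt a.2
            · simp at a
        rw [key 0 (by omega), key 1 (by omega)]
        have : τ a κ = 0 ∨ τ a κ = 1 := by omega
        rcases this with h | h <;> rw [h] <;> simp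
      rw [Finset.sum_congr rfl h3, Finset.sum_const, Finset.card_range, smul_eq_mul, mul_one]
    have h3 : ∀ c ∈ range D.cls.length, ∑ i ∈ range 9, ind I (3, c, i, 0) = 4 := by
      intro c hc
      rw [Finset.mem_range] at hc
      have key : ∀ i, i < 9 → ind I (3, c, i, 0) =
          if qs (tru P τ (D.cls.getD c dfl).1) (tru P τ (D.cls.getD c dfl).2.1) i
          then 1 else 0 := by
        intro i hi
        split_ifs with hq
        · exact ind_one ((hmem _).2 ⟨mem_labs.2 (Or.inr (Or.inr (Or.inr ⟨rfl, hc, hi, by simp⟩))),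
            Or.inr (Or.inr (Or.inr ⟨rfl, hq⟩))⟩)
        · refine ind_zero (fun hm => ?_)
          rcases ((hmem _).1 hm).2 with a | a | a | a
          · simp at a
          · simp at a
          · simp at a
          · exact hq a.2
      simp only [Finset.sum_range_succ, Finset.sum_range_zero, Nat.zero_add]
      rw [key 0 (by omega), key 1 (by omega), key 2 (by omega), key 3 (by omega),
        key 4 (by omega), key 5 (by omega), key 6 (by omega), key 7 (by omega), key 8 (by omega)]
      generalize tru P τ (D.cls.getD c dfl).1 = B0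
      generalize tru P τ (D.cls.getD c dfl).2.1 = B1
      by_cases b0 : B0
      · simp [qs, b0]
      · by_cases b1 : B1
        · simp [qs, b0, b1]
        · simp [qs, b0, b1]
    rw [Finset.sum_congr rfl h1, Finset.sum_congr rfl h2, Finset.sum_congr rfl h3,
      Finset.sum_const, Finset.sum_const, Finset.sum_const, Finset.card_range, Finset.card_range,
      Finset.card_range, smul_eq_mul, smul_eq_mul, smul_eq_mul]
    unfold kk
    omega

/-- The main property of the graph. -/
theorem yes_iff_sol {D : Dat} (hH : Host D.A D.h D.r) (hh : 0 < D.h) (hr : 1 ≤ D.r)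
    (hD : ok D) : Yes (inst D) ↔ Sol D := by
  rw [yes_iff]
  constructor
  · rintro ⟨I, hI, hind, hc⟩
    exact sol_of_indep hH hh hr hD hI hind hc
  · exact indep_of_sol

end Pool.Agent.H801.Tri
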