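import Pool.Agent.H801.Tri.Comp
import Pool.Agent.H801.Fvs.Time

/-!
# The composition is computed in polynomial time
-/

namespace Pool.Agent.H801.Tri

open Pool.Agent.NPC
open Pool.Agent.H801.Fvs (F3 Cl good ent poly_good)

section

variable {α : Type} [TEnc α]

theorem poly_mk4 {a b c d : α → ℕ} (ha : NPC.Poly a) (hb : NPC.Poly b) (hc : NPC.Poly c)
    (hd : NPC.Poly d) : NPC.Poly (fun x => ((a x, b x, c x, d x) : E)) :=
  NPC.Poly.pair ha (NPC.Poly.pair hb (NPC.Poly.pair hc hd))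

theorem poly_cube (κ : ℕ) {a b c : α → ℕ} (ha : UPoly a) (hb : UPoly b) (hc : UPoly c) :
    NPC.Poly (fun x => cube κ (a x) (b x) (c x)) := by
  unfold cube
  refine NPC.Poly.flatMap (F := fun p x => (List.range (b p)).flatMap (fun y =>
    (List.range (c p)).map (fun z => ((κ, x, y, z) : E)))) (UPoly.range ha) ?_
  refine NPC.Poly.flatMap (F := fun (p : α × ℕ) y =>
    (List.range (c p.1)).map (fun z => ((κ, p.2, y, z) : E)))
    (UPoly.range (hb.comp (NPC.Poly.fst NPC.Poly.id))) ?_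
  refine NPC.Poly.map (F := fun (p : (α × ℕ) × ℕ) z => ((κ, p.1.2, p.2, z) : E))
    (UPoly.range (hc.comp (NPC.Poly.fst (NPC.Poly.fst NPC.Poly.id)))) ?_
  exact poly_mk4 (NPC.Poly.const κ) (NPC.Poly.snd (NPC.Poly.fst (NPC.Poly.fst NPC.Poly.id)))
    (NPC.Poly.snd (NPC.Poly.fst NPC.Poly.id)) (NPC.Poly.snd NPC.Poly.id)

theorem upoly_wN {N : α → ℕ} (hN : UPoly N) : UPoly (fun a => wN (N a)) := by
  unfold wN
  exact UPoly.add (UPoly.add (UPoly.add (UPoly.add (UPoly.add hN hN) hN) hN) hN) hN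

theorem poly_litN {c : α → Cl} {p : α → ℕ} (hc : NPC.Poly c) (hp : NPC.Poly p) :
    NPC.Poly (fun a => litN (c a) (p a)) := by
  unfold litN
  exact NPC.Poly.ite (NPC.Poly.decide_eq hp (NPC.Poly.const 0)) hc.fst
    (NPC.Poly.ite (NPC.Poly.decide_eq hp (NPC.Poly.const 1)) hc.snd.fst hc.snd.snd)

theorem poly_ng {l : α → Lit ℕ} (hl : NPC.Poly l) : NPC.Poly (fun a => ng (l a)) := by
  unfold ng
  exact NPC.Poly.add (NPC.Poly.add hl.snd hl.snd) (NPC.Poly.ite (NPC.Poly.decide_bool hl.fst)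
    (NPC.Poly.const 0) (NPC.Poly.const 1))

theorem poly_cfo {N o o' : α → ℕ} {φ : α → F3} (hN : NPC.Poly N) (hφ : NPC.Poly φ)
    (ho : NPC.Poly o) (ho' : NPC.Poly o') :
    NPC.Poly (fun a => cfo (N a) (φ a) (o a) (o' a)) := by
  unfold cfo
  refine NPC.Poly.or (NPC.Poly.not (poly_good hN hφ)) ?_
  refine (NPC.Poly.optCases (o := fun a => (φ a)[o' a / 3]?) (g := fun _ => false)
    (h := fun a (c : Cl) => decide (o a = ng (litN c (o' a % 3))))
    (NPC.Poly.getElem? hφ (NPC.Poly.div ho' (NPC.Poly.const 3))) (NPC.Poly.const false) ?_).congr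
    fun a => ?_
  · exact NPC.Poly.decide_eq (ho.comp (NPC.Poly.fst NPC.Poly.id))
      (poly_ng (poly_litN (NPC.Poly.snd NPC.Poly.id)
      (NPC.Poly.mod (ho'.comp (NPC.Poly.fst NPC.Poly.id)) (NPC.Poly.const 3))))
  · cases (φ a)[o' a / 3]? <;> rfl

theorem poly_cfc {N t x i i' : α → ℕ} {Φ : α → List F3} (hN : UPoly N) (ht : NPC.Poly t)
    (hΦ : NPC.Poly Φ) (hx : NPC.Poly x) (hi : NPC.Poly i) (hi' : NPC.Poly i') :
    NPC.Poly (fun a => cfc (N a) (t a) (Φ a) (x a) (i a) (i' a)) := by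
  unfold cfc
  have hw := (upoly_wN hN).toPoly
  have hd := NPC.Poly.div hi hw
  have hd' := NPC.Poly.div hi' hw
  refine NPC.Poly.and (NPC.Poly.decide_lt hd ht) (NPC.Poly.and (NPC.Poly.decide_lt hd' ht) ?_)
  refine (NPC.Poly.optCases (o := fun a =>
    (Φ a)[(x a * t a + i a / wN (N a)) * t a + i' a / wN (N a)]?) (g := fun _ => true)
    (h := fun a (φ : F3) => cfo (N a) φ (i a % wN (N a)) (i' a % wN (N a)))
    (NPC.Poly.getElem? hΦ (NPC.Poly.add (NPC.Poly.mul (NPC.Poly.add (NPC.Poly.mul hx ht) hd) ht)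
      hd')) (NPC.Poly.const true) ?_).congr fun a => ?_
  · exact poly_cfo (hN.toPoly.comp (NPC.Poly.fst NPC.Poly.id)) (NPC.Poly.snd NPC.Poly.id)
      ((NPC.Poly.mod hi hw).comp (NPC.Poly.fst NPC.Poly.id))
      ((NPC.Poly.mod hi' hw).comp (NPC.Poly.fst NPC.Poly.id))
  · cases (Φ a)[(x a * t a + i a / wN (N a)) * t a + i' a / wN (N a)]? <;> rfl

theorem poly_pos {κ a : α → ℕ} (hκ : NPC.Poly κ) (ha : NPC.Poly a) :
    NPC.Poly (fun x => pos (κ x) (a x)) := poly_mk4 (NPC.Poly.const 2) ha (NPC.Poly.const 0) hκ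

theorem poly_neg {κ a : α → ℕ} (hκ : NPC.Poly κ) (ha : NPC.Poly a) :
    NPC.Poly (fun x => neg (κ x) (a x)) := poly_mk4 (NPC.Poly.const 2) ha (NPC.Poly.const 1) hκ

theorem poly_con {σ j : α → ℕ} (hσ : NPC.Poly σ) (hj : NPC.Poly j) :
    NPC.Poly (fun x => con (σ x) (j x)) := poly_mk4 (NPC.Poly.const 1) hσ hj (NPC.Poly.const 0)

theorem poly_tri {a b c : α → E} (ha : NPC.Poly a) (hb : NPC.Poly b) (hc : NPC.Poly c) :
    NPC.Poly (fun x => ((a x, b x, c x) : E × E × E)) := NPC.Poly.pair ha (NPC.Poly.pair hb hc)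

theorem poly_cls {N t : α → ℕ} (hN : UPoly N) (ht : UPoly t) :
    NPC.Poly (fun a => cls (N a) (t a)) := by
  unfold cls
  have ht' := ht.toPoly
  have hw := (upoly_wN hN).toPoly
  have k0 : NPC.Poly (fun _ : α => 0) := NPC.Poly.const 0
  have k1 : NPC.Poly (fun _ : α => 1) := NPC.Poly.const 1
  refine NPC.Poly.append (NPC.Poly.cons (NPC.Poly.const _) (NPC.Poly.cons (NPC.Poly.const _)
    (NPC.Poly.cons (poly_tri (poly_neg k0 ht') (poly_neg k0 ht') (poly_neg k0 ht'))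
    (NPC.Poly.cons (poly_tri (poly_neg k1 ht') (poly_neg k1 ht') (poly_neg k1 ht'))
    (NPC.Poly.const _))))) ?_
  refine NPC.Poly.flatMap (F := fun a y =>
    [(neg 0 y, pos 2 y, pos 0 (y + 1)), (neg 1 y, pos 3 y, pos 1 (y + 1))] ++
    ((List.range (N a + N a + N a)).map (fun v =>
      (neg 2 y, con 0 (y * wN (N a) + (v + v)), con 0 (y * wN (N a) + (v + v + 1)))) ++
    (List.range (N a)).flatMap (fun c =>
      [(neg 3 y, con 1 (y * wN (N a) + (c + c + c)), pos (4 + c) y),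
        (neg (4 + c) y, con 1 (y * wN (N a) + (c + c + c + 1)),
          con 1 (y * wN (N a) + (c + c + c + 2)))]))) (UPoly.range ht) ?_
  have hy : NPC.Poly (fun p : α × ℕ => p.2) := NPC.Poly.snd NPC.Poly.id
  have hN' : UPoly (fun p : α × ℕ => N p.1) := hN.comp (NPC.Poly.fst NPC.Poly.id)
  refine NPC.Poly.append (NPC.Poly.cons (poly_tri (poly_neg (NPC.Poly.const 0) hy)
    (poly_pos (NPC.Poly.const 2) hy) (poly_pos (NPC.Poly.const 0)
      (NPC.Poly.add hy (NPC.Poly.const 1)))) (NPC.Poly.cons (poly_tri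
    (poly_neg (NPC.Poly.const 1) hy) (poly_pos (NPC.Poly.const 3) hy) (poly_pos (NPC.Poly.const 1)
      (NPC.Poly.add hy (NPC.Poly.const 1)))) (NPC.Poly.const _))) (NPC.Poly.append
    (NPC.Poly.map (F := fun (p : α × ℕ) v => ((neg 2 p.2, con 0 (p.2 * wN (N p.1) + (v + v)),
      con 0 (p.2 * wN (N p.1) + (v + v + 1))) : E × E × E))
      (UPoly.range (UPoly.add (UPoly.add hN' hN') hN')) ?_)
    (NPC.Poly.flatMap (F := fun (p : α × ℕ) c =>
      [((neg 3 p.2, con 1 (p.2 * wN (N p.1) + (c + c + c)), pos (4 + c) p.2) : E × E × E),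
        (neg (4 + c) p.2, con 1 (p.2 * wN (N p.1) + (c + c + c + 1)),
          con 1 (p.2 * wN (N p.1) + (c + c + c + 2)))]) (UPoly.range hN') ?_))
  · have h1 : NPC.Poly (fun z : (α × ℕ) × ℕ => z.1.2) := NPC.Poly.snd (NPC.Poly.fst NPC.Poly.id)
    have h2 : NPC.Poly (fun z : (α × ℕ) × ℕ => z.2) := NPC.Poly.snd NPC.Poly.id
    have h3 : NPC.Poly (fun z : (α × ℕ) × ℕ => z.1.2 * wN (N z.1.1)) :=
      NPC.Poly.mul h1 (hw.comp (NPC.Poly.fst (NPC.Poly.fst NPC.Poly.id)))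
    have h4 := NPC.Poly.add h2 h2
    exact poly_tri (poly_neg (NPC.Poly.const 2) h1) (poly_con (NPC.Poly.const 0)
      (NPC.Poly.add h3 h4)) (poly_con (NPC.Poly.const 0)
      (NPC.Poly.add h3 (NPC.Poly.add h4 (NPC.Poly.const 1))))
  · have h1 : NPC.Poly (fun z : (α × ℕ) × ℕ => z.1.2) := NPC.Poly.snd (NPC.Poly.fst NPC.Poly.id)
    have h2 : NPC.Poly (fun z : (α × ℕ) × ℕ => z.2) := NPC.Poly.snd NPC.Poly.id
    have h3 : NPC.Poly (fun z : (α × ℕ) × ℕ => z.1.2 * wN (N z.1.1)) :=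
      NPC.Poly.mul h1 (hw.comp (NPC.Poly.fst (NPC.Poly.fst NPC.Poly.id)))
    have h4 := NPC.Poly.add (NPC.Poly.add h2 h2) h2
    have h5 : NPC.Poly (fun z : (α × ℕ) × ℕ => 4 + z.2) := NPC.Poly.add (NPC.Poly.const 4) h2
    exact NPC.Poly.cons (poly_tri (poly_neg (NPC.Poly.const 3) h1) (poly_con (NPC.Poly.const 1)
      (NPC.Poly.add h3 h4)) (poly_pos h5 h1)) (NPC.Poly.cons (poly_tri (poly_neg h5 h1)
      (poly_con (NPC.Poly.const 1) (NPC.Poly.add h3 (NPC.Poly.add h4 (NPC.Poly.const 1))))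
      (poly_con (NPC.Poly.const 1) (NPC.Poly.add h3 (NPC.Poly.add h4 (NPC.Poly.const 2)))))
      (NPC.Poly.const _))

end

/-- the type of the input of the composition -/
abbrev PI : Type :=
  List (List Bool) × List Unit × List Unit × List Unit × List Unit × List F3

/-- the data made from the input -/
def dt (z : PI) : Dat :=
  dat z.1 z.2.1.length z.2.2.1.length z.2.2.2.1.length z.2.2.2.2.1.length z.2.2.2.2.2

theorem upoly_h : UPoly (fun z : PI => z.2.1.length) :=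
  UPoly.length (NPC.Poly.fst (NPC.Poly.snd NPC.Poly.id))

theorem upoly_r : UPoly (fun z : PI => z.2.2.1.length) :=
  UPoly.length (NPC.Poly.fst (NPC.Poly.snd (NPC.Poly.snd NPC.Poly.id)))

theorem upoly_t : UPoly (fun z : PI => z.2.2.2.1.length) :=
  UPoly.length (NPC.Poly.fst (NPC.Poly.snd (NPC.Poly.snd (NPC.Poly.snd NPC.Poly.id))))

theorem upoly_N : UPoly (fun z : PI => z.2.2.2.2.1.length) :=
  UPoly.length (NPC.Poly.fst (NPC.Poly.snd (NPC.Poly.snd (NPC.Poly.snd (NPC.Poly.snd NPC.Poly.id)))))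

theorem poly_Φ : NPC.Poly (fun z : PI => z.2.2.2.2.2) :=
  NPC.Poly.snd (NPC.Poly.snd (NPC.Poly.snd (NPC.Poly.snd (NPC.Poly.snd NPC.Poly.id))))

theorem poly_clsd : NPC.Poly (fun z : PI => (dt z).cls) := poly_cls upoly_N upoly_t

theorem upoly_na : UPoly (fun z : PI => (dt z).na) := UPoly.add upoly_t (UPoly.const 1)

theorem upoly_nk : UPoly (fun z : PI => (dt z).nk) := UPoly.add upoly_N (UPoly.const 4)

theorem poly_labs : NPC.Poly (fun z : PI => labs (dt z)) := by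
  unfold labs
  exact NPC.Poly.append (poly_cube 0 (UPoly.const 2) upoly_r (UPoly.add upoly_h upoly_h))
    (NPC.Poly.append (poly_cube 1 (UPoly.const 2) upoly_h (UPoly.const 1))
    (NPC.Poly.append (poly_cube 2 upoly_na (UPoly.const 2) upoly_nk)
    (poly_cube 3 (UPoly.length poly_clsd) (UPoly.const 9) (UPoly.const 1))))

theorem upoly_kk : UPoly (fun z : PI => kk (dt z)) := by
  unfold kk
  have hl := UPoly.length poly_clsd
  exact UPoly.add (UPoly.add (UPoly.add (UPoly.add (UPoly.add upoly_h upoly_h) upoly_h) upoly_h)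
    (UPoly.mul upoly_na upoly_nk)) (UPoly.add (UPoly.add (UPoly.add hl hl) hl) hl)

theorem poly_ent {β : Type} [TEnc β] {M : β → List (List Bool)} {a b : β → ℕ}
    (hM : NPC.Poly M) (ha : NPC.Poly a) (hb : NPC.Poly b) :
    NPC.Poly (fun x => ent (M x) (a x) (b x)) := by
  unfold ent
  exact NPC.Poly.getD (NPC.Poly.getD hM ha (NPC.Poly.const [])) hb (NPC.Poly.const false)

theorem poly_adjA {β : Type} [TEnc β] {z : β → PI} {x y : β → E} (hz : NPC.Poly z)
    (hx : NPC.Poly x) (hy : NPC.Poly y) :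
    NPC.Poly (fun b => decide (adjA (dt (z b)) (x b) (y b))) := by
  unfold adjA
  have c0 : NPC.Poly (fun _ : β => 0) := NPC.Poly.const 0
  have c1 : NPC.Poly (fun _ : β => 1) := NPC.Poly.const 1
  have c2 : NPC.Poly (fun _ : β => 2) := NPC.Poly.const 2
  have c3 : NPC.Poly (fun _ : β => 3) := NPC.Poly.const 3
  have hh : NPC.Poly (fun b => (dt (z b)).h) := (upoly_h.comp hz).toPoly
  have hA : NPC.Poly (fun b => ent (dt (z b)).A (x b).2.2.2 (y b).2.2.2) :=
    poly_ent hz.fst hx.snd.snd.snd hy.snd.snd.snd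
  have hcf : NPC.Poly (fun b => (dt (z b)).cf (x b).2.2.1 (x b).2.2.2 (y b).2.2.2) :=
    poly_cfc (upoly_N.comp hz) (upoly_t.comp hz).toPoly (poly_Φ.comp hz) hx.snd.snd.fst
      hx.snd.snd.snd hy.snd.snd.snd
  have hcl : NPC.Poly (fun b => (dt (z b)).cls.getD (x b).2.1 dfl) :=
    NPC.Poly.getD (poly_clsd.comp hz) hx.snd.fst (NPC.Poly.const dfl)
  refine NPC.Poly.decide_or (NPC.Poly.decide_and (NPC.Poly.decide_eq hx.fst c0)
    (NPC.Poly.decide_and (NPC.Poly.decide_eq hy.fst c0) (NPC.Poly.decide_and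
      (NPC.Poly.decide_eq hx.snd.fst hy.snd.fst) (NPC.Poly.decide_and
      (NPC.Poly.decide_not (NPC.Poly.decide_eq hx.snd.snd.fst hy.snd.snd.fst))
      (NPC.Poly.decide_eq hA (NPC.Poly.const true)))))) ?_
  refine NPC.Poly.decide_or (NPC.Poly.decide_and (NPC.Poly.decide_eq hx.fst c0)
    (NPC.Poly.decide_and (NPC.Poly.decide_eq hy.fst c0) (NPC.Poly.decide_and
      (NPC.Poly.decide_eq hx.snd.fst c0) (NPC.Poly.decide_and
      (NPC.Poly.decide_eq hy.snd.fst c1) (NPC.Poly.decide_or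
      (NPC.Poly.decide_and (NPC.Poly.decide_eq hx.snd.snd.fst hy.snd.snd.fst)
        (NPC.Poly.decide_and (NPC.Poly.decide_lt hx.snd.snd.snd hh)
        (NPC.Poly.decide_and (NPC.Poly.decide_lt hy.snd.snd.snd hh)
        (NPC.Poly.decide_eq hcf (NPC.Poly.const true)))))
      (NPC.Poly.decide_and
        (NPC.Poly.decide_not (NPC.Poly.decide_eq hx.snd.snd.fst hy.snd.snd.fst))
        (NPC.Poly.decide_and (NPC.Poly.decide_eq hx.snd.snd.snd hh)
        (NPC.Poly.decide_eq hy.snd.snd.snd hh)))))))) ?_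
  refine NPC.Poly.decide_or (NPC.Poly.decide_and (NPC.Poly.decide_eq hx.fst c1)
    (NPC.Poly.decide_and (NPC.Poly.decide_eq hy.fst c0) (NPC.Poly.decide_and
      (NPC.Poly.decide_eq hx.snd.fst hy.snd.fst)
      (NPC.Poly.decide_eq hx.snd.snd.fst hy.snd.snd.snd)))) ?_
  refine NPC.Poly.decide_or (NPC.Poly.decide_and (NPC.Poly.decide_eq hx.fst c2)
    (NPC.Poly.decide_and (NPC.Poly.decide_eq hy.fst c2) (NPC.Poly.decide_and
      (NPC.Poly.decide_eq hx.snd.fst hy.snd.fst) (NPC.Poly.decide_and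
      (NPC.Poly.decide_eq hx.snd.snd.snd hy.snd.snd.snd) (NPC.Poly.decide_and
      (NPC.Poly.decide_eq hx.snd.snd.fst c0) (NPC.Poly.decide_eq hy.snd.snd.fst c1)))))) ?_
  refine NPC.Poly.decide_or (NPC.Poly.decide_and (NPC.Poly.decide_eq hx.fst c3)
    (NPC.Poly.decide_and (NPC.Poly.decide_eq hy.fst c3) (NPC.Poly.decide_and
      (NPC.Poly.decide_eq hx.snd.fst hy.snd.fst) (NPC.Poly.decide_or
      (NPC.Poly.decide_eq (NPC.Poly.add hx.snd.snd.fst c1) hy.snd.snd.fst)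
      (NPC.Poly.decide_and (NPC.Poly.decide_eq hx.snd.snd.fst c0)
        (NPC.Poly.decide_eq hy.snd.snd.fst (NPC.Poly.const 8))))))) ?_
  exact NPC.Poly.decide_and (NPC.Poly.decide_eq hx.fst c3) (NPC.Poly.decide_or
    (NPC.Poly.decide_and (NPC.Poly.decide_eq hx.snd.snd.fst c0)
      (NPC.Poly.decide_eq hy hcl.fst)) (NPC.Poly.decide_or
    (NPC.Poly.decide_and (NPC.Poly.decide_eq hx.snd.snd.fst c3)
      (NPC.Poly.decide_eq hy hcl.snd.fst))
    (NPC.Poly.decide_and (NPC.Poly.decide_eq hx.snd.snd.fst (NPC.Poly.const 6))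
      (NPC.Poly.decide_eq hy hcl.snd.snd))))

theorem poly_adjR {β : Type} [TEnc β] {z : β → PI} {x y : β → E} (hz : NPC.Poly z)
    (hx : NPC.Poly x) (hy : NPC.Poly y) :
    NPC.Poly (fun b => decide (adjR (dt (z b)) (x b) (y b))) := by
  unfold adjR
  exact NPC.Poly.decide_and (NPC.Poly.decide_not (NPC.Poly.decide_eq hx hy))
    (NPC.Poly.decide_or (poly_adjA hz hx hy) (poly_adjA hz hy hx))

theorem poly_inst : NPC.Poly (fun z : PI => inst (dt z)) := by
  unfold inst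
  refine NPC.Poly.pair (NPC.Poly.map (F := fun (z : PI) x => (labs (dt z)).map
    (fun y => decide (adjR (dt z) x y))) poly_labs ?_) upoly_kk.toPoly
  refine NPC.Poly.map (F := fun (p : PI × E) y => decide (adjR (dt p.1) p.2 y))
    (poly_labs.comp (NPC.Poly.fst NPC.Poly.id)) ?_
  exact poly_adjR (NPC.Poly.fst (NPC.Poly.fst NPC.Poly.id)) (NPC.Poly.snd (NPC.Poly.fst NPC.Poly.id))
    (NPC.Poly.snd NPC.Poly.id)

end Pool.Agent.H801.Tri
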